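import Pool.Agent.Helper85.Vu.Defs

/-! Definitions for the process part (global potential) of the proof of Vu's conjecture.
`D` bounds the row sums of the closed adjacency matrix `A`, `P` is the boosting kernel. -/

set_option autoImplicit false
set_option linter.unusedVariables false

namespace Pool.Agent.H48.Vu

open Finset Pool.Agent.Helper85.Vu
open scoped Classical

variable {V : Type} [Fintype V]

/-- the region of level `j` around `u` -/
noncomputable def Sr (η D : ℝ) (A P : V → V → ℝ) (u : V) (j : ℕ) : Finset V :=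
  reg η D A P u (j + 1)

/-- weights of the test vertices; `wg j u` is supported on `Sr u j` -/
noncomputable def wg (η D : ℝ) (A P : V → V → ℝ) (u : V) : ℕ → V → ℝ
  | 0 => fun x => dd A P u x ^ 2
  | j + 1 => fun y =>
      if y ∈ Sr η D A P u (j + 1) then (∑ x, wg η D A P u j x * P y x ^ 2) / D else 0

/-- `s_j(u,x)` -/
noncomputable def sj (η D : ℝ) (A P : V → V → ℝ) (u : V) (j : ℕ) (x : V) (R : V → ℝ) : ℝ :=
  (∑ y ∈ Sr η D A P u (j + 1), P y x ^ 2 * R y) / D

/-- `n(u)` -/
noncomputable def nu (D : ℝ) (A P : V → V → ℝ) (u : V) (R : V → ℝ) : ℝ :=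
  (∑ y, dd A P u y ^ 2 * R y) / D

/-- expectation over one step of length `h` -/
noncomputable def Ex (D : ℝ) (A P : V → V → ℝ) (h : ℝ) (R : V → ℝ) (Φ : (V → ℝ) → ℝ) : ℝ :=
  ∑ e, h * (R e / D) * Φ (pk A P R e) + (1 - h * ((∑ e, R e) / D)) * Φ (wt D A P h R)

/-- discarding -/
noncomputable def disc (M : ℝ) (R : V → ℝ) : V → ℝ := fun y => if R y ≤ M then R y else 0

/-- the noise part of the jump at `e` of the functional `(∑ y ∈ S, k y * R y) / D` -/
noncomputable def Qf (D : ℝ) (A P : V → V → ℝ) (S S' : Finset V) (k R : V → ℝ) (e : V) : ℝ :=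
  if e ∈ S' then (∑ y ∈ S, k y * R y * (dd A P y e - P y e ^ 2)) / D
  else (∑ y ∈ S, k y * R y * dd A P y e) / D

/-- the excess potential with `N` levels -/
noncomputable def Ph (η D : ℝ) (A P : V → V → ℝ) (N : ℕ) (gs : ℝ) (g : ℕ → ℝ) (R : V → ℝ) : ℝ :=
  (∑ u, pp (nu D A P u R - gs) ^ 2) / Fintype.card V
    + ∑ j ∈ range N, (∑ u, ∑ x, wg η D A P u j x * pp (sj η D A P u j x R - g j) ^ 2)
        / (Fintype.card V * D)

/-- the total potential: `r` = remaining time, `a`, `b` = current coefficients -/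
noncomputable def Fp (η D : ℝ) (A P : V → V → ℝ) (N : ℕ) (r a b gs : ℝ) (g : ℕ → ℝ)
    (R : V → ℝ) : ℝ :=
  r * ((∑ y, R y) / Fintype.card V) - a * ((∑ y, R y ^ 2) / Fintype.card V)
    - b * Ph η D A P N gs g R

/-- average noise; index `0` is the functional `nu`, index `j + 1` is `sj ... j` -/
noncomputable def Nz (η D : ℝ) (A P : V → V → ℝ) (R : V → ℝ) : ℕ → ℝ
  | 0 => (∑ u, (∑ e, R e * Qf D A P (Sr η D A P u 0) (Sr η D A P u 1)
      (fun y => dd A P u y ^ 2) R e ^ 2) / D) / Fintype.card V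
  | j + 1 => (∑ u, ∑ x, wg η D A P u j x *
      ((∑ e, R e * Qf D A P (Sr η D A P u (j + 1)) (Sr η D A P u (j + 2))
        (fun y => P y x ^ 2) R e ^ 2) / D)) / (Fintype.card V * D)

end Pool.Agent.H48.Vu
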