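import Pool.Agent.H48.Vu.Defs

/-! Elementary facts on the kernel `dd`, the regions and the weights. -/

set_option autoImplicit false
set_option linter.unusedVariables false

namespace Pool.Agent.H48.Vu

open Finset Pool.Agent.Helper85.Vu
open scoped Classical

theorem dd_symm {V : Type} [Fintype V] {D τ : ℝ} {A C P : V → V → ℝ} (hk : Ker D τ A C P)
    (x y : V) : dd A P x y = dd A P y x := by
  unfold dd
  rw [hk.symm x y, hk.P_symm x y]

theorem dd_abs_le {V : Type} [Fintype V] {D τ : ℝ} {A C P : V → V → ℝ} (hk : Ker D τ A C P)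
    (x y : V) : |dd A P x y| ≤ 1 := by
  unfold dd
  have h1 := hk.P_nonneg x y
  have h2 := (hk.P_le x y).trans (hk.C_le x y)
  rcases hk.zo x y with h | h <;> rw [h] <;> rw [abs_le] <;> constructor <;> linarith

theorem dd_sq_row {V : Type} [Fintype V] {D τ : ℝ} {A C P : V → V → ℝ} (hk : Ker D τ A C P)
    (x : V) : ∑ y, dd A P x y ^ 2 ≤ 2 * D := by
  have h1 : ∀ y, dd A P x y ^ 2 ≤ A x y + C x y ^ 2 := by
    intro y
    have h1 := hk.P_nonneg x y
    have h2 := hk.P_le x y
    unfold dd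
    rcases hk.zo x y with h | h <;> rw [h]
    · nlinarith
    · nlinarith [sq_nonneg (C x y)]
  calc ∑ y, dd A P x y ^ 2 ≤ ∑ y, (A x y + C x y ^ 2) := Finset.sum_le_sum fun y _ => h1 y
    _ = ∑ y, A x y + ∑ y, C x y ^ 2 := Finset.sum_add_distrib
    _ ≤ 2 * D := by have := hk.row x; have := hk.C_row x; linarith

theorem dd_abs_row {V : Type} [Fintype V] {D τ : ℝ} {A C P : V → V → ℝ} (hk : Ker D τ A C P)
    (x : V) : ∑ y, |dd A P x y| ≤ (1 + 1 / τ ^ 2) * D := by
  have h1 : ∀ y, |dd A P x y| ≤ A x y + (if P x y ≠ 0 then 1 else 0) := by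
    intro y
    have h1 := hk.P_nonneg x y
    have h2 := (hk.P_le x y).trans (hk.C_le x y)
    unfold dd
    rcases hk.zo x y with h | h <;> rw [h]
    · split_ifs with h3
      · rw [abs_le]; constructor <;> linarith
      · push Not at h3
        rw [h3]; simp
    · split_ifs <;> norm_num
  calc ∑ y, |dd A P x y| ≤ ∑ y, (A x y + (if P x y ≠ 0 then 1 else 0)) :=
        Finset.sum_le_sum fun y _ => h1 y
    _ = ∑ y, A x y + ((univ.filter (fun y => P x y ≠ 0)).card : ℝ) := by
        rw [Finset.sum_add_distrib, Finset.sum_boole]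
    _ ≤ (1 + 1 / τ ^ 2) * D := by
        have h2 := hk.row x
        have h3 := hk.P_supp x
        have h4 : (1 + 1 / τ ^ 2) * D = D + D / τ ^ 2 := by ring
        linarith

theorem Sr_mono {V : Type} [Fintype V] (η D : ℝ) (A P : V → V → ℝ) (u : V) {i j : ℕ}
    (hij : i ≤ j) : Sr η D A P u i ⊆ Sr η D A P u j := by
  induction j, hij using Nat.le_induction with
  | base => exact subset_rfl
  | succ j _ ih =>
    refine ih.trans ?_
    unfold Sr
    intro x hx
    rw [reg]
    exact Finset.mem_union_left _ (Finset.mem_union_left _ hx)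

theorem Sr_zero {V : Type} [Fintype V] {D τ : ℝ} {A C P : V → V → ℝ} (hk : Ker D τ A C P)
    (η : ℝ) (u y : V) (h : dd A P u y ≠ 0) : y ∈ Sr η D A P u 0 := by
  unfold Sr
  rw [reg, reg]
  simp only [Finset.mem_union, Finset.mem_filter, Finset.mem_univ, true_and]
  rcases hk.zo u y with h1 | h1
  · left; right
    intro h2
    apply h
    unfold dd
    rw [h1, h2]; ring
  · left; left; exact h1

theorem Sr_out {V : Type} [Fintype V] {D τ : ℝ} {A C P : V → V → ℝ} (hk : Ker D τ A C P)
    (η : ℝ) (u : V) (j : ℕ) (e : V) (he : e ∉ Sr η D A P u (j + 1)) :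
    ∑ y ∈ Sr η D A P u j, |dd A P y e| ≤ η * D := by
  have h1 : ¬ (η * D ≤ ∑ y ∈ reg η D A P u (j + 1), (A y e + P y e)) := by
    intro h2
    apply he
    unfold Sr
    rw [reg]
    refine Finset.mem_union_right _ ?_
    simp only [Finset.mem_filter, Finset.mem_univ, true_and]
    exact h2
  push Not at h1
  refine le_trans (Finset.sum_le_sum fun y _ => ?_) h1.le
  have h2 := hk.P_nonneg y e
  unfold dd
  rcases hk.zo y e with h | h <;> rw [h]
  · rw [abs_le]; constructor <;> linarith
  · norm_num; exact h2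

theorem wg_zero_eq {V : Type} [Fintype V] (η D : ℝ) (A P : V → V → ℝ) (u x : V) :
    wg η D A P u 0 x = dd A P u x ^ 2 := rfl

theorem wg_succ_eq {V : Type} [Fintype V] (η D : ℝ) (A P : V → V → ℝ) (u : V) (j : ℕ) (y : V) :
    wg η D A P u (j + 1) y =
      if y ∈ Sr η D A P u (j + 1) then (∑ x, wg η D A P u j x * P y x ^ 2) / D else 0 := rfl

theorem wg_nonneg {V : Type} [Fintype V] {D τ : ℝ} {A C P : V → V → ℝ} (hk : Ker D τ A C P)
    (η : ℝ) (u : V) (j : ℕ) (x : V) : 0 ≤ wg η D A P u j x := by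
  have hD : 0 < D := lt_of_lt_of_le one_pos hk.one_le
  induction j generalizing x with
  | zero => rw [wg_zero_eq]; positivity
  | succ j ih =>
    rw [wg_succ_eq]
    split_ifs
    · exact div_nonneg (Finset.sum_nonneg fun y _ => mul_nonneg (ih y) (sq_nonneg _)) hD.le
    · exact le_rfl

theorem P_sq_row {V : Type} [Fintype V] {D τ : ℝ} {A C P : V → V → ℝ} (hk : Ker D τ A C P)
    (x : V) : ∑ y, P x y ^ 2 ≤ D := by
  refine le_trans (Finset.sum_le_sum fun y _ => ?_) (hk.C_row x)
  have h1 := hk.P_nonneg x y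
  have h2 := hk.P_le x y
  nlinarith

theorem wg_le_one {V : Type} [Fintype V] {D τ : ℝ} {A C P : V → V → ℝ} (hk : Ker D τ A C P)
    (η : ℝ) (u : V) (j : ℕ) (x : V) : wg η D A P u j x ≤ 1 := by
  have hD : 0 < D := lt_of_lt_of_le one_pos hk.one_le
  induction j generalizing x with
  | zero =>
    rw [wg_zero_eq]
    have h := dd_abs_le hk u x
    rw [← sq_abs]
    nlinarith [abs_nonneg (dd A P u x)]
  | succ j ih =>
    rw [wg_succ_eq]
    split_ifs
    · rw [div_le_one hD]
      refine le_trans (Finset.sum_le_sum fun y _ => ?_) (P_sq_row hk x)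
      exact mul_le_of_le_one_left (sq_nonneg _) (ih y)
    · exact zero_le_one

theorem wg_sum {V : Type} [Fintype V] {D τ : ℝ} {A C P : V → V → ℝ} (hk : Ker D τ A C P)
    (η : ℝ) (u : V) (j : ℕ) : ∑ x, wg η D A P u j x ≤ 2 * D := by
  have hD : 0 < D := lt_of_lt_of_le one_pos hk.one_le
  induction j with
  | zero =>
    simp only [wg_zero_eq]
    exact dd_sq_row hk u
  | succ j ih =>
    have h1 : ∑ y, wg η D A P u (j + 1) y ≤ ∑ y, (∑ x, wg η D A P u j x * P y x ^ 2) / D := by
      refine Finset.sum_le_sum fun y _ => ?_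
      rw [wg_succ_eq]
      split_ifs
      · exact le_rfl
      · exact div_nonneg (Finset.sum_nonneg fun x _ =>
          mul_nonneg (wg_nonneg hk η u j x) (sq_nonneg _)) hD.le
    refine h1.trans ?_
    rw [← Finset.sum_div, div_le_iff₀ hD, Finset.sum_comm]
    calc ∑ x, ∑ y, wg η D A P u j x * P y x ^ 2
        = ∑ x, wg η D A P u j x * ∑ y, P x y ^ 2 := by
          refine Finset.sum_congr rfl fun x _ => ?_
          rw [Finset.mul_sum]
          refine Finset.sum_congr rfl fun y _ => ?_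
          rw [hk.P_symm x y]
      _ ≤ ∑ x, wg η D A P u j x * D := Finset.sum_le_sum fun x _ =>
          mul_le_mul_of_nonneg_left (P_sq_row hk x) (wg_nonneg hk η u j x)
      _ = (∑ x, wg η D A P u j x) * D := by rw [Finset.sum_mul]
      _ ≤ 2 * D * D := mul_le_mul_of_nonneg_right ih hD.le

theorem wg_supp {V : Type} [Fintype V] {D τ : ℝ} {A C P : V → V → ℝ} (hk : Ker D τ A C P)
    (η : ℝ) (u : V) (j : ℕ) (x : V) (hx : x ∉ Sr η D A P u j) : wg η D A P u j x = 0 := by
  cases j with
  | zero =>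
    rw [wg_zero_eq]
    by_contra h
    exact hx (Sr_zero hk η u x (fun h2 => h (by rw [h2]; ring)))
  | succ j => rw [wg_succ_eq, if_neg hx]

theorem wg_succ {V : Type} [Fintype V] {D τ : ℝ} {A C P : V → V → ℝ} (hk : Ker D τ A C P)
    (η : ℝ) (u : V) (j : ℕ) (v : V → ℝ) :
    ∑ x, wg η D A P u j x * ((∑ y ∈ Sr η D A P u (j + 1), P y x ^ 2 * v y) / D) =
      ∑ y, wg η D A P u (j + 1) y * v y := by
  have h1 : ∀ y, wg η D A P u (j + 1) y * v y =
      if y ∈ Sr η D A P u (j + 1) then (∑ x, wg η D A P u j x * P y x ^ 2) / D * v y else 0 := by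
    intro y
    rw [wg_succ_eq]
    split_ifs
    · rfl
    · rw [zero_mul]
  simp only [h1]
  rw [← Finset.sum_filter, Finset.filter_mem_eq_inter, Finset.univ_inter]
  simp only [Finset.sum_div, Finset.mul_sum, Finset.sum_mul]
  rw [Finset.sum_comm]
  refine Finset.sum_congr rfl fun y _ => Finset.sum_congr rfl fun x _ => ?_
  ring

end Pool.Agent.H48.Vu
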