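import Pool.Agent.H48.Vu.Defs

/-! One step of the process: the inequality for one functional. -/

set_option autoImplicit false
set_option linter.unusedVariables false

namespace Pool.Agent.H48.Vu

open Finset Pool.Agent.Helper85.Vu
open scoped Classical

namespace P2

private theorem dd_symm' {V : Type} [Fintype V] {D τ : ℝ} {A C P : V → V → ℝ}
    (hk : Ker D τ A C P) (x y : V) : dd A P x y = dd A P y x := by
  unfold dd; rw [hk.symm x y, hk.P_symm x y]

private theorem dd_abs_le' {V : Type} [Fintype V] {D τ : ℝ} {A C P : V → V → ℝ}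
    (hk : Ker D τ A C P) (x y : V) : |dd A P x y| ≤ 1 := by
  have h0 := hk.P_nonneg x y
  have h1 := (hk.P_le x y).trans (hk.C_le x y)
  unfold dd
  rcases hk.zo x y with h | h <;> rw [h, abs_le] <;> constructor <;> linarith

private theorem pp_nonneg' (x : ℝ) : 0 ≤ pp x := le_max_right _ _

private theorem le_pp' (x : ℝ) : x ≤ pp x := le_max_left _ _

private theorem pp_mono' {x y : ℝ} (h : x ≤ y) : pp x ≤ pp y := max_le_max h le_rfl

private theorem pp_add_sq' (x b : ℝ) : pp (x + b) ^ 2 ≤ pp x ^ 2 + 2 * pp x * b + b ^ 2 := by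
  unfold pp
  rcases le_total 0 x with hx | hx
  · rw [max_eq_left hx]
    rcases le_total 0 (x + b) with h | h
    · rw [max_eq_left h]; nlinarith
    · rw [max_eq_right h]; nlinarith [sq_nonneg (x + b)]
  · rw [max_eq_right hx]
    rcases le_total 0 (x + b) with h | h
    · rw [max_eq_left h]; nlinarith
    · rw [max_eq_right h]; nlinarith [sq_nonneg b]

/-- the elementary inequality behind `gen_step` -/
private theorem core (h g g' γ G s E : ℝ) (hh : 0 ≤ h) (hg : 0 ≤ g) (hgg : g ≤ g') (hG : 0 ≤ G)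
    (hE : 0 ≤ E) (σ : ℝ) (hσ : σ ≤ γ * s + E)
    (hc : g < s → h * (g * γ) ≤ g' - g ∧ 0 ≤ γ ∧ γ ≤ G) :
    pp (s - g') ^ 2 + 2 * pp (s - g') * (h * σ) ≤
      pp (s - g) ^ 2 + h * ((2 * G + 1) * pp (s - g) ^ 2 + E ^ 2) + (g' - g) ^ 2 := by
  have hX := pp_nonneg' (s - g)
  have hbase : 0 ≤ pp (s - g) ^ 2 + h * ((2 * G + 1) * pp (s - g) ^ 2 + E ^ 2) + (g' - g) ^ 2 := by
    positivity
  rcases le_or_gt (s - g') 0 with h1 | h1
  · have : pp (s - g') = 0 := by unfold pp; exact max_eq_right h1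
    rw [this]; simpa using hbase
  · have e1 : pp (s - g') = s - g' := by unfold pp; exact max_eq_left h1.le
    have h2 : 0 < s - g := by linarith
    have e2 : pp (s - g) = s - g := by unfold pp; exact max_eq_left h2.le
    obtain ⟨c1, c2, c3⟩ := hc (by linarith)
    rw [e1, e2]
    set X := s - g with hXd
    set d := g' - g with hdd
    have hX' : s - g' = X - d := by rw [hXd, hdd]; ring
    have hd : 0 ≤ d := by rw [hdd]; linarith
    rw [hX'] at h1 ⊢
    have hs : s = g + X := by rw [hXd]; ring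
    have t1 : 2 * (X - d) * (h * σ) ≤ 2 * (X - d) * (h * (γ * s + E)) := by
      apply mul_le_mul_of_nonneg_left _ (by linarith)
      exact mul_le_mul_of_nonneg_left hσ hh
    have t2 : 2 * (X - d) * (h * (γ * s + E)) =
        2 * (X - d) * (h * (g * γ)) + 2 * h * γ * ((X - d) * X) + 2 * h * ((X - d) * E) := by
      rw [hs]; ring
    have t3 : 2 * (X - d) * (h * (g * γ)) ≤ 2 * (X - d) * d :=
      mul_le_mul_of_nonneg_left c1 (by linarith)
    have t4 : (X - d) * X ≤ X ^ 2 := by nlinarith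
    have t5 : 2 * h * γ * ((X - d) * X) ≤ 2 * h * G * X ^ 2 := by
      have hhγ : 2 * h * γ ≤ 2 * h * G := by nlinarith
      have : 0 ≤ (X - d) * X := by positivity
      calc 2 * h * γ * ((X - d) * X) ≤ 2 * h * G * ((X - d) * X) :=
            mul_le_mul_of_nonneg_right hhγ this
        _ ≤ _ := mul_le_mul_of_nonneg_left t4 (by positivity)
    have t6 : 2 * h * ((X - d) * E) ≤ h * (X ^ 2 + E ^ 2) := by
      have : 2 * ((X - d) * E) ≤ X ^ 2 + E ^ 2 := by nlinarith [sq_nonneg (X - E), mul_nonneg hd hE]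
      nlinarith
    nlinarith [sq_nonneg d]

end P2

open P2

/-- P2 -/
theorem gen_step {V : Type} [Fintype V] {D τ : ℝ} {A C P : V → V → ℝ} (hk : Ker D τ A C P)
    {h : ℝ} (hh : 0 ≤ h) {R : V → ℝ} (hR : ∀ y, 0 ≤ R y) {Z : ℝ} (hZ : Z = (∑ y, R y) / D)
    (hZ1 : h * Z ≤ 1) (S S' : Finset V) {k : V → ℝ} (hk0 : ∀ y, 0 ≤ k y) (hk1 : ∀ y, k y ≤ 1)
    {g g' γ G s : ℝ} (hg : 0 ≤ g) (hgg : g ≤ g') (hG : 0 ≤ G)
    (hs : s = (∑ y ∈ S, k y * R y) / D)
    (hc : g < s → h * (g * γ) ≤ g' - g ∧ 0 ≤ γ ∧ γ ≤ G) :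
    Ex D A P h R (fun R' => pp ((∑ y ∈ S, k y * R' y) / D - g') ^ 2) ≤
      pp (s - g) ^ 2 + h * ((2 * G + 1) * pp (s - g) ^ 2
        + s * ((∑ y ∈ S, k y * R y * pp ((∑ e ∈ S', P e y ^ 2 * R e) / D - γ) ^ 2) / D)
        + (∑ e, R e * Qf D A P S S' k R e ^ 2) / D)
        + (3 * h ^ 2 * Z ^ 4 + (g' - g) ^ 2) := by
  have hD : 0 < D := lt_of_lt_of_le one_pos hk.one_le
  -- notation
  set J : V → ℝ := fun e => (∑ y ∈ S, k y * R y * dd A P y e) / D with hJ
  set q : V → ℝ := fun e => Qf D A P S S' k R e with hq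
  set pe : V → ℝ := fun e => J e - q e with hpe
  set σ : V → ℝ := fun y => (∑ e ∈ S', P e y ^ 2 * R e) / D with hσ
  set j : ℝ := ∑ e, (R e / D) * J e with hj
  set X' := pp (s - g') with hX'
  have hφ0 : ∀ y, 0 ≤ k y * R y := fun y => mul_nonneg (hk0 y) (hR y)
  have hZ0 : 0 ≤ Z := by rw [hZ]; exact div_nonneg (sum_nonneg fun y _ => hR y) hD.le
  have hs0 : 0 ≤ s := by rw [hs]; exact div_nonneg (sum_nonneg fun y _ => hφ0 y) hD.le
  have hsZ : s ≤ Z := by
    rw [hs, hZ]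
    apply div_le_div_of_nonneg_right _ hD.le
    calc ∑ y ∈ S, k y * R y ≤ ∑ y ∈ S, R y :=
          sum_le_sum fun y _ => by nlinarith [hR y, hk1 y]
      _ ≤ ∑ y, R y := sum_le_sum_of_subset_of_nonneg (subset_univ _) fun y _ _ => hR y
  have hJabs : ∀ e, |J e| ≤ s := by
    intro e
    rw [hJ, hs]
    simp only
    rw [abs_div, abs_of_pos hD]
    apply div_le_div_of_nonneg_right _ hD.le
    refine (abs_sum_le_sum_abs _ _).trans (sum_le_sum fun y _ => ?_)
    rw [abs_mul, abs_of_nonneg (hφ0 y)]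
    calc k y * R y * |dd A P y e| ≤ k y * R y * 1 :=
          mul_le_mul_of_nonneg_left (dd_abs_le' hk y e) (hφ0 y)
      _ = _ := mul_one _
  have hRD : ∀ e, 0 ≤ R e / D := fun e => div_nonneg (hR e) hD.le
  have hsumRD : ∑ e, R e / D = Z := by rw [hZ, sum_div]
  have hjabs : |j| ≤ Z ^ 2 := by
    rw [hj]
    refine (abs_sum_le_sum_abs _ _).trans ?_
    calc ∑ e, |R e / D * J e| ≤ ∑ e, R e / D * Z := by
          refine sum_le_sum fun e _ => ?_
          rw [abs_mul, abs_of_nonneg (hRD e)]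
          exact mul_le_mul_of_nonneg_left ((hJabs e).trans hsZ) (hRD e)
      _ = Z ^ 2 := by rw [← sum_mul, hsumRD]; ring
  -- the part which is dropped
  have hpe_eq : ∀ e, pe e = if e ∈ S' then (∑ y ∈ S, k y * R y * P y e ^ 2) / D else 0 := by
    intro e
    simp only [hpe, hJ, hq, Qf]
    split_ifs with he
    · rw [← sub_div, ← sum_sub_distrib]
      congr 1
      refine sum_congr rfl fun y _ => ?_
      ring
    · ring
  have hpe0 : ∀ e, 0 ≤ pe e := by
    intro e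
    rw [hpe_eq]
    split_ifs
    · exact div_nonneg (sum_nonneg fun y _ => mul_nonneg (hφ0 y) (sq_nonneg _)) hD.le
    · exact le_rfl
  have hpesum : ∑ e, (R e / D) * pe e = (∑ y ∈ S, k y * R y * σ y) / D := by
    have h1 : ∑ e, (R e / D) * pe e =
        ∑ e ∈ S', ∑ y ∈ S, (R e / D) * (k y * R y * P y e ^ 2 / D) := by
      simp only [hpe_eq, mul_ite, mul_zero]
      rw [← sum_filter]
      have : univ.filter (fun e => e ∈ S') = S' := by ext e; simp
      rw [this]
      refine sum_congr rfl fun e _ => ?_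
      rw [sum_div, mul_sum]
    rw [h1, sum_comm, sum_div]
    refine sum_congr rfl fun y _ => ?_
    simp only [hσ]
    rw [mul_div_assoc, sum_div, sum_div, mul_sum]
    refine sum_congr rfl fun e _ => ?_
    rw [hk.P_symm y e]
    ring
  -- values of the functional
  have hval1 : ∀ e, (∑ y ∈ S, k y * pk A P R e y) / D = s - J e := by
    intro e
    rw [hs]
    simp only [hJ, pk]
    rw [← sub_div, ← sum_sub_distrib]
    congr 1
    refine sum_congr rfl fun y _ => ?_
    ring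
  have hval2 : (∑ y ∈ S, k y * wt D A P h R y) / D = s + h * j := by
    rw [hs]
    have : h * j = (∑ y ∈ S, k y * R y * (h * rt D A P R y)) / D := by
      simp only [hj, hJ, rt]
      rw [mul_sum, sum_div]
      have h2 : ∀ y ∈ S, k y * R y * (h * ((∑ e, R e * dd A P y e) / D)) / D =
          ∑ e, h * (R e / D * (k y * R y * dd A P y e / D)) := by
        intro y _
        rw [sum_div, mul_sum, mul_sum, sum_div]
        refine sum_congr rfl fun e _ => ?_
        ring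
      rw [sum_congr rfl h2, sum_comm]
      refine sum_congr rfl fun e _ => ?_
      rw [sum_div, mul_sum, mul_sum]
    rw [this, ← add_div, ← sum_add_distrib]
    congr 1
    refine sum_congr rfl fun y _ => ?_
    simp only [wt]
    ring
  have hX'0 : 0 ≤ X' := pp_nonneg' _
  have hX's : X' ≤ Z := by
    rw [hX']; unfold pp
    exact max_le (by linarith) hZ0
  -- bound of the two kinds of outcomes
  have hb1 : ∀ e, pp ((∑ y ∈ S, k y * pk A P R e y) / D - g') ^ 2 ≤
      X' ^ 2 - 2 * X' * q e + q e ^ 2 := by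
    intro e
    rw [hval1]
    have h1 : s - J e - g' ≤ (s - g') + (-q e) := by
      have := hpe0 e
      simp only [hpe] at this
      linarith
    have h2 : pp (s - J e - g') ^ 2 ≤ pp ((s - g') + (-q e)) ^ 2 :=
      pow_le_pow_left₀ (pp_nonneg' _) (pp_mono' h1) 2
    have h3 := pp_add_sq' (s - g') (-q e)
    rw [← hX'] at h3
    nlinarith
  have hb2 : pp ((∑ y ∈ S, k y * wt D A P h R y) / D - g') ^ 2 ≤
      X' ^ 2 + 2 * X' * (h * j) + (h * j) ^ 2 := by
    rw [hval2]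
    have h3 := pp_add_sq' (s - g') (h * j)
    rw [← hX'] at h3
    have : s + h * j - g' = s - g' + h * j := by ring
    rw [this]
    exact h3
  have hZ1' : 0 ≤ 1 - h * Z := by linarith
  have hEx : Ex D A P h R (fun R' => pp ((∑ y ∈ S, k y * R' y) / D - g') ^ 2) ≤
      (∑ e, h * (R e / D) * (X' ^ 2 - 2 * X' * q e + q e ^ 2)) +
        (1 - h * Z) * (X' ^ 2 + 2 * X' * (h * j) + (h * j) ^ 2) := by
    unfold Ex
    rw [← hZ]
    exact add_le_add (sum_le_sum fun e _ => mul_le_mul_of_nonneg_left (hb1 e)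
      (mul_nonneg hh (hRD e))) (mul_le_mul_of_nonneg_left hb2 hZ1')
  have hsplit : (∑ e, h * (R e / D) * (X' ^ 2 - 2 * X' * q e + q e ^ 2)) =
      h * Z * X' ^ 2 - 2 * X' * h * (∑ e, (R e / D) * q e) +
        h * ((∑ e, R e * q e ^ 2) / D) := by
    rw [← hsumRD, sum_div, mul_sum, mul_sum, mul_sum, sum_mul, ← sum_sub_distrib,
      ← sum_add_distrib]
    refine sum_congr rfl fun e _ => ?_
    ring
  have hjq : j = (∑ e, (R e / D) * q e) + (∑ e, (R e / D) * pe e) := by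
    rw [hj, ← sum_add_distrib]
    refine sum_congr rfl fun e _ => ?_
    simp only [hpe]; ring
  -- Cauchy-Schwarz
  set E : ℝ := (∑ y ∈ S, k y * R y * pp (σ y - γ)) / D with hE
  have hE0 : 0 ≤ E :=
    div_nonneg (sum_nonneg fun y _ => mul_nonneg (hφ0 y) (pp_nonneg' _)) hD.le
  have hE2 : E ^ 2 ≤ s * ((∑ y ∈ S, k y * R y * pp (σ y - γ) ^ 2) / D) := by
    rw [hE, hs, div_pow, div_mul_div_comm, ← sq]
    apply div_le_div_of_nonneg_right _ (by positivity)
    have := sum_mul_sq_le_sq_mul_sq S (fun y => Real.sqrt (k y * R y))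
      (fun y => Real.sqrt (k y * R y) * pp (σ y - γ))
    have e1 : ∀ y ∈ S, Real.sqrt (k y * R y) * (Real.sqrt (k y * R y) * pp (σ y - γ)) =
        k y * R y * pp (σ y - γ) := by
      intro y _
      rw [← mul_assoc, Real.mul_self_sqrt (hφ0 y)]
    have e2 : ∀ y ∈ S, Real.sqrt (k y * R y) ^ 2 = k y * R y := fun y _ =>
      Real.sq_sqrt (hφ0 y)
    have e3 : ∀ y ∈ S, (Real.sqrt (k y * R y) * pp (σ y - γ)) ^ 2 =
        k y * R y * pp (σ y - γ) ^ 2 := by
      intro y _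
      rw [mul_pow, Real.sq_sqrt (hφ0 y)]
    rw [sum_congr rfl e1, sum_congr rfl e2, sum_congr rfl e3] at this
    exact this
  have hσle : (∑ y ∈ S, k y * R y * σ y) / D ≤ γ * s + E := by
    rw [hE, hs, ← mul_div_assoc, ← add_div]
    apply div_le_div_of_nonneg_right _ hD.le
    rw [mul_sum, ← sum_add_distrib]
    refine sum_le_sum fun y _ => ?_
    have := le_pp' (σ y - γ)
    nlinarith [hφ0 y]
  have hcore := core h g g' γ G s E hh hg hgg hG hE0 ((∑ y ∈ S, k y * R y * σ y) / D) hσle hc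
  rw [← hX', ← hpesum] at hcore
  -- error terms
  have herr : -(h * Z * (2 * X' * (h * j))) + (1 - h * Z) * (h * j) ^ 2 ≤ 3 * h ^ 2 * Z ^ 4 := by
    have hj1 := abs_le.mp hjabs
    have hj2 : j ^ 2 ≤ (Z ^ 2) ^ 2 := sq_le_sq' hj1.1 hj1.2
    have t1 : -(h * Z * (2 * X' * (h * j))) ≤ 2 * h ^ 2 * Z ^ 4 := by
      have a1 : -j ≤ Z ^ 2 := by linarith [hj1.1]
      have a2 : X' * (-j) ≤ Z * Z ^ 2 := by
        rcases le_total 0 (-j) with hc | hc
        · exact mul_le_mul hX's a1 hc hZ0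
        · have : X' * (-j) ≤ 0 := mul_nonpos_of_nonneg_of_nonpos hX'0 hc
          have : 0 ≤ Z * Z ^ 2 := by positivity
          linarith
      have a3 : 0 ≤ 2 * h ^ 2 * Z := by positivity
      calc -(h * Z * (2 * X' * (h * j))) = 2 * h ^ 2 * Z * (X' * (-j)) := by ring
        _ ≤ 2 * h ^ 2 * Z * (Z * Z ^ 2) := mul_le_mul_of_nonneg_left a2 a3
        _ = _ := by ring
    have t2 : (1 - h * Z) * (h * j) ^ 2 ≤ h ^ 2 * Z ^ 4 := by
      have : (1 - h * Z) * (h * j) ^ 2 ≤ 1 * (h * j) ^ 2 :=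
        mul_le_mul_of_nonneg_right (by nlinarith [mul_nonneg hh hZ0]) (sq_nonneg _)
      calc (1 - h * Z) * (h * j) ^ 2 ≤ 1 * (h * j) ^ 2 := this
        _ = h ^ 2 * j ^ 2 := by ring
        _ ≤ h ^ 2 * (Z ^ 2) ^ 2 := mul_le_mul_of_nonneg_left hj2 (sq_nonneg _)
        _ = _ := by ring
    linarith
  have hEh : h * E ^ 2 ≤ h * (s * ((∑ y ∈ S, k y * R y * pp (σ y - γ) ^ 2) / D)) :=
    mul_le_mul_of_nonneg_left hE2 hh
  calc Ex D A P h R (fun R' => pp ((∑ y ∈ S, k y * R' y) / D - g') ^ 2)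
      ≤ _ := hEx
    _ = (X' ^ 2 + 2 * X' * (h * ∑ e, (R e / D) * pe e)) + h * ((∑ e, R e * q e ^ 2) / D) +
        (-(h * Z * (2 * X' * (h * j))) + (1 - h * Z) * (h * j) ^ 2) := by
          rw [hsplit]
          have : ∑ e, (R e / D) * pe e = j - ∑ e, (R e / D) * q e := by rw [hjq]; ring
          rw [this]
          ring
    _ ≤ _ := by
          nlinarith [hcore, herr, hEh]

/-- P2', the first moment -/
theorem Ex_sum {V : Type} [Fintype V] {D τ : ℝ} {A C P : V → V → ℝ} (hk : Ker D τ A C P)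
    {h : ℝ} (hh : 0 ≤ h) {R : V → ℝ} (hR : ∀ y, 0 ≤ R y) {Z : ℝ} (hZ : Z = (∑ y, R y) / D)
    (hZ1 : h * Z ≤ 1) :
    (∑ y, R y) - h ^ 2 * Z ^ 2 * (∑ y, R y) ≤ Ex D A P h R (fun R' => ∑ y, R' y) := by
  have hD : 0 < D := lt_of_lt_of_le one_pos hk.one_le
  have hZ0 : 0 ≤ Z := by rw [hZ]; exact div_nonneg (sum_nonneg fun y _ => hR y) hD.le
  have hsumRD : ∑ e, R e / D = Z := by rw [hZ, sum_div]
  have hrt : ∀ y, |rt D A P R y| ≤ Z := by
    intro y
    unfold rt
    rw [abs_div, abs_of_pos hD, hZ]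
    apply div_le_div_of_nonneg_right _ hD.le
    refine (abs_sum_le_sum_abs _ _).trans (sum_le_sum fun e _ => ?_)
    rw [abs_mul, abs_of_nonneg (hR e)]
    calc R e * |dd A P y e| ≤ R e * 1 := mul_le_mul_of_nonneg_left (dd_abs_le' hk y e) (hR e)
      _ = _ := mul_one _
  have hval : Ex D A P h R (fun R' => ∑ y, R' y) =
      ∑ y, R y * (1 - h ^ 2 * Z * rt D A P R y) := by
    unfold Ex
    rw [← hZ]
    have e1 : ∑ e, h * (R e / D) * ∑ y, pk A P R e y =
        ∑ y, R y * (h * Z - h * rt D A P R y) := by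
      simp only [mul_sum]
      rw [sum_comm]
      refine sum_congr rfl fun y _ => ?_
      rw [← hsumRD]
      simp only [rt, pk]
      rw [sum_div, mul_sum, mul_sum, ← sum_sub_distrib, mul_sum]
      refine sum_congr rfl fun e _ => ?_
      ring
    rw [e1]
    simp only [wt, mul_sum]
    rw [← sum_add_distrib]
    refine sum_congr rfl fun y _ => ?_
    ring
  rw [hval, mul_sum, ← sum_sub_distrib]
  refine sum_le_sum fun y _ => ?_
  have h1 := (abs_le.mp (hrt y)).2
  have h2 : h ^ 2 * Z * rt D A P R y ≤ h ^ 2 * Z * Z :=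
    mul_le_mul_of_nonneg_left h1 (by positivity)
  nlinarith [hR y]

/-- P2'', the second moment -/
theorem Ex_sq {V : Type} [Fintype V] {D τ : ℝ} {A C P : V → V → ℝ} (hk : Ker D τ A C P)
    {h : ℝ} (hh : 0 ≤ h) {R : V → ℝ} (hR : ∀ y, 0 ≤ R y) {Z : ℝ} (hZ : Z = (∑ y, R y) / D)
    (hZ1 : h * Z ≤ 1) :
    Ex D A P h R (fun R' => ∑ y, R' y ^ 2) ≤
      ∑ y, R y ^ 2 * (1 + h * nu D A P y R + 3 * h ^ 2 * Z ^ 2) := by
  have hD : 0 < D := lt_of_lt_of_le one_pos hk.one_le
  have hZ0 : 0 ≤ Z := by rw [hZ]; exact div_nonneg (sum_nonneg fun y _ => hR y) hD.le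
  have hsumRD : ∑ e, R e / D = Z := by rw [hZ, sum_div]
  have hrt : ∀ y, |rt D A P R y| ≤ Z := by
    intro y
    unfold rt
    rw [abs_div, abs_of_pos hD, hZ]
    apply div_le_div_of_nonneg_right _ hD.le
    refine (abs_sum_le_sum_abs _ _).trans (sum_le_sum fun e _ => ?_)
    rw [abs_mul, abs_of_nonneg (hR e)]
    calc R e * |dd A P y e| ≤ R e * 1 := mul_le_mul_of_nonneg_left (dd_abs_le' hk y e) (hR e)
      _ = _ := mul_one _
  have hval : Ex D A P h R (fun R' => ∑ y, R' y ^ 2) =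
      ∑ y, R y ^ 2 * (1 + h * nu D A P y R - 2 * h ^ 2 * Z * rt D A P R y
        + (1 - h * Z) * h ^ 2 * rt D A P R y ^ 2) := by
    unfold Ex
    rw [← hZ]
    have e1 : ∑ e, h * (R e / D) * ∑ y, pk A P R e y ^ 2 =
        ∑ y, R y ^ 2 * (h * Z - 2 * (h * rt D A P R y) + h * nu D A P y R) := by
      simp only [mul_sum]
      rw [sum_comm]
      refine sum_congr rfl fun y _ => ?_
      rw [← hsumRD]
      simp only [rt, pk, nu]
      rw [sum_div, sum_div, mul_sum, mul_sum, mul_sum, mul_sum, ← sum_sub_distrib,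
        ← sum_add_distrib, mul_sum]
      refine sum_congr rfl fun e _ => ?_
      ring
    rw [e1]
    simp only [wt, mul_sum]
    rw [← sum_add_distrib]
    refine sum_congr rfl fun y _ => ?_
    ring
  rw [hval]
  refine sum_le_sum fun y _ => mul_le_mul_of_nonneg_left ?_ (sq_nonneg _)
  have h1 := abs_le.mp (hrt y)
  have h2 : rt D A P R y ^ 2 ≤ Z ^ 2 := sq_le_sq' h1.1 h1.2
  have h3 : -(2 * h ^ 2 * Z * rt D A P R y) ≤ 2 * h ^ 2 * Z * Z := by
    have : 2 * h ^ 2 * Z * (-rt D A P R y) ≤ 2 * h ^ 2 * Z * Z :=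
      mul_le_mul_of_nonneg_left (by linarith [h1.1]) (by positivity)
    linarith
  have h4 : (1 - h * Z) * h ^ 2 * rt D A P R y ^ 2 ≤ h ^ 2 * Z ^ 2 := by
    have a1 : (1 - h * Z) * (h ^ 2 * rt D A P R y ^ 2) ≤ 1 * (h ^ 2 * rt D A P R y ^ 2) :=
      mul_le_mul_of_nonneg_right (by nlinarith [mul_nonneg hh hZ0]) (by positivity)
    have a2 : h ^ 2 * rt D A P R y ^ 2 ≤ h ^ 2 * Z ^ 2 :=
      mul_le_mul_of_nonneg_left h2 (sq_nonneg _)
    nlinarith
  nlinarith

end Pool.Agent.H48.Vu
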