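import Pool.Agent.H48.Vu.Defs

/-!
The noise terms.
-/

set_option autoImplicit false
set_option linter.unusedVariables false

namespace Pool.Agent.H48.Vu

open Finset Pool.Agent.Helper85.Vu
open scoped Classical

namespace P3

variable {V : Type} [Fintype V] {D τ : ℝ} {A C P : V → V → ℝ}

lemma D_pos (hk : Ker D τ A C P) : 0 < D := lt_of_lt_of_le one_pos hk.one_le

lemma P_le_one (hk : Ker D τ A C P) (x y : V) : P x y ≤ 1 :=
  (hk.P_le x y).trans (hk.C_le x y)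

lemma A_nonneg (hk : Ker D τ A C P) (x y : V) : 0 ≤ A x y := by
  rcases hk.zo x y with h | h <;> rw [h] <;> norm_num

lemma A_le_one (hk : Ker D τ A C P) (x y : V) : A x y ≤ 1 := by
  rcases hk.zo x y with h | h
  · rw [h]; norm_num
  · rw [h]

lemma abs_dd_le (hk : Ker D τ A C P) (x y : V) :
    |dd A P x y| ≤ A x y + if P x y ≠ 0 then 1 else 0 := by
  have h0 := hk.P_nonneg x y
  have h1 := P_le_one hk x y
  unfold dd
  rcases hk.zo x y with h | h
  · rw [h]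
    by_cases hP : P x y = 0
    · simp [hP]
    · simp only [if_pos hP]
      rw [abs_le]
      constructor <;> linarith
  · rw [h]
    have h2 : (0 : ℝ) ≤ if P x y ≠ 0 then 1 else 0 := by split_ifs <;> norm_num
    simp only [sub_self, zero_mul, sub_zero, abs_one]
    linarith

lemma abs_dd_le_one (hk : Ker D τ A C P) (x y : V) : |dd A P x y| ≤ 1 := by
  have h0 := hk.P_nonneg x y
  have h1 := P_le_one hk x y
  unfold dd
  rcases hk.zo x y with h | h
  · rw [h, abs_le]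
    constructor <;> linarith
  · rw [h]
    simp

lemma dd_row (hk : Ker D τ A C P) (x : V) :
    ∑ y, |dd A P x y| ≤ (1 + 1 / τ ^ 2) * D := by
  have h1 : ∑ y, |dd A P x y| ≤ ∑ y, (A x y + if P x y ≠ 0 then 1 else 0) :=
    Finset.sum_le_sum fun y _ => abs_dd_le hk x y
  rw [Finset.sum_add_distrib] at h1
  have h2 : (∑ y, if P x y ≠ 0 then (1 : ℝ) else 0) =
      ((univ.filter (fun y => P x y ≠ 0)).card : ℝ) := by
    rw [Finset.sum_boole]
  rw [h2] at h1
  have h3 := hk.row x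
  have h4 := hk.P_supp x
  have h5 : (1 + 1 / τ ^ 2) * D = D + D / τ ^ 2 := by ring
  linarith

lemma P_row (hk : Ker D τ A C P) (x : V) : ∑ y, P x y ^ 2 ≤ D :=
  (Finset.sum_le_sum fun y _ => pow_le_pow_left₀ (hk.P_nonneg x y) (hk.P_le x y) 2).trans
    (hk.C_row x)

/-- the weights -/
noncomputable def ph (D : ℝ) (S : Finset V) (k R : V → ℝ) (y : V) : ℝ :=
  if y ∈ S then k y * R y / D else 0

lemma ph_nonneg (hk : Ker D τ A C P) (S : Finset V) {k R : V → ℝ}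
    (hR : ∀ y, 0 ≤ R y) (hk0 : ∀ y, 0 ≤ k y) (y : V) : 0 ≤ ph D S k R y := by
  unfold ph
  have hD := D_pos hk
  split_ifs
  · exact div_nonneg (mul_nonneg (hk0 y) (hR y)) hD.le
  · exact le_rfl

lemma sum_ph (S : Finset V) (k R f : V → ℝ) :
    (∑ y ∈ S, k y * R y * f y) / D = ∑ y, ph D S k R y * f y := by
  unfold ph
  simp only [ite_mul, zero_mul]
  rw [← Finset.sum_filter, Finset.sum_div]
  simp only [Finset.filter_mem_eq_inter, Finset.univ_inter]
  exact Finset.sum_congr rfl fun y _ => by ring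

lemma ph_one (hk : Ker D τ A C P) {M : ℝ} (hM : 1 ≤ M) (S : Finset V) {k R : V → ℝ}
    (hR : ∀ y, 0 ≤ R y) (hRM : ∀ y, R y ≤ M) (hk0 : ∀ y, 0 ≤ k y)
    (hks : ∑ y ∈ S, k y ≤ 2 * D) : ∑ y, ph D S k R y ≤ 2 * M := by
  have hD := D_pos hk
  have h1 := sum_ph (D := D) S k R (fun _ => 1)
  simp only [mul_one] at h1
  rw [← h1, div_le_iff₀ hD]
  calc ∑ y ∈ S, k y * R y ≤ ∑ y ∈ S, k y * M :=
        Finset.sum_le_sum fun y _ => mul_le_mul_of_nonneg_left (hRM y) (hk0 y)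
    _ = (∑ y ∈ S, k y) * M := by rw [Finset.sum_mul]
    _ ≤ 2 * D * M := mul_le_mul_of_nonneg_right hks (by linarith)
    _ = 2 * M * D := by ring

lemma ph_two (hk : Ker D τ A C P) {M : ℝ} (hM : 1 ≤ M) (S : Finset V) {k R : V → ℝ}
    (hR : ∀ y, 0 ≤ R y) (hRM : ∀ y, R y ≤ M) (hk0 : ∀ y, 0 ≤ k y) (hk1 : ∀ y, k y ≤ 1)
    (hks : ∑ y ∈ S, k y ≤ 2 * D) : ∑ y, ph D S k R y ^ 2 ≤ 2 * M ^ 2 / D := by
  have hD := D_pos hk
  have h2 : ∀ y, ph D S k R y ^ 2 ≤ M / D * ph D S k R y := by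
    intro y
    have h3 := ph_nonneg hk S hR hk0 y
    have h4 : ph D S k R y ≤ M / D := by
      unfold ph
      split_ifs
      · rw [div_le_div_iff_of_pos_right hD]
        calc k y * R y ≤ 1 * M := mul_le_mul (hk1 y) (hRM y) (hR y) zero_le_one
          _ = M := one_mul M
      · exact div_nonneg (by linarith) hD.le
    rw [sq]
    exact mul_le_mul_of_nonneg_right h4 h3
  calc ∑ y, ph D S k R y ^ 2 ≤ ∑ y, M / D * ph D S k R y := Finset.sum_le_sum fun y _ => h2 y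
    _ = M / D * ∑ y, ph D S k R y := by rw [Finset.mul_sum]
    _ ≤ M / D * (2 * M) := mul_le_mul_of_nonneg_left (ph_one hk hM S hR hRM hk0 hks)
        (div_nonneg (by linarith) hD.le)
    _ = 2 * M ^ 2 / D := by ring

omit [Fintype V] in
lemma dd_sub (x y : V) : dd A P x y - P x y ^ 2 =
    nz A C P x y + (C x y - P x y) * (1 + P x y) := by
  unfold dd nz; ring

/-- sum over one index of a non-negative combination -/
lemma sum_swap_le (f : V → ℝ) (hf : ∀ y, 0 ≤ f y) (g : V → V → ℝ) (T : Finset V) (c b : ℝ)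
    (hg : ∀ y, ∑ e ∈ T, g y e ≤ c) (hc : 0 ≤ c) (hb : ∑ y, f y ≤ b) :
    ∑ e ∈ T, ∑ y, f y * g y e ≤ b * c := by
  rw [Finset.sum_comm]
  calc ∑ y, ∑ e ∈ T, f y * g y e = ∑ y, f y * ∑ e ∈ T, g y e :=
        Finset.sum_congr rfl fun y _ => by rw [Finset.mul_sum]
    _ ≤ ∑ y, f y * c := Finset.sum_le_sum fun y _ => mul_le_mul_of_nonneg_left (hg y) (hf y)
    _ = (∑ y, f y) * c := by rw [Finset.sum_mul]
    _ ≤ b * c := mul_le_mul_of_nonneg_right hb hc

lemma noise_sq (hk : Ker D τ A C P) {M ε : ℝ} (hM : 1 ≤ M) (hε : 0 ≤ ε)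
    {S St : Finset V} (hn : NoiseOK ε D A C P St) (hS : S ⊆ St) (f : V → ℝ)
    (hf : ∀ y, y ∉ S → f y = 0) (hf2 : ∑ y, f y ^ 2 ≤ 2 * M ^ 2 / D) :
    ∑ e ∈ St, (∑ y, f y * nz A C P y e) ^ 2 ≤ 2 * M ^ 2 * ε ^ 2 * D := by
  have hD := D_pos hk
  obtain ⟨a, ha⟩ : ∃ a : V → ℝ, ∀ e, a e = ∑ y, f y * nz A C P y e := ⟨_, fun e => rfl⟩
  simp only [← ha]
  obtain ⟨N, hN⟩ : ∃ N, N = ∑ e ∈ St, a e ^ 2 := ⟨_, rfl⟩
  rw [← hN]
  have hN0 : 0 ≤ N := by rw [hN]; exact Finset.sum_nonneg fun e _ => sq_nonneg _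
  have h1 := hn f a
  have h2 : ∑ x ∈ St, ∑ y ∈ St, f x * a y * nz A C P x y = N := by
    rw [Finset.sum_comm, hN]
    refine Finset.sum_congr rfl fun e _ => ?_
    have h3 : ∑ x ∈ St, f x * nz A C P x e = a e := by
      rw [ha]
      refine Finset.sum_subset (Finset.subset_univ _) fun y _ hy => ?_
      rw [hf y (fun h => hy (hS h)), zero_mul]
    rw [sq]
    nth_rewrite 3 [← h3]
    rw [Finset.mul_sum]
    exact Finset.sum_congr rfl fun x _ => by ring
  rw [h2, abs_of_nonneg hN0, ← hN] at h1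
  have h3 : ∑ x ∈ St, f x ^ 2 ≤ 2 * M ^ 2 / D :=
    (Finset.sum_le_sum_of_subset_of_nonneg (Finset.subset_univ _)
      fun y _ _ => sq_nonneg _).trans hf2
  have h4 : N ≤ ε * D * Real.sqrt (2 * M ^ 2 / D) * Real.sqrt N :=
    h1.trans (mul_le_mul_of_nonneg_right (mul_le_mul_of_nonneg_left (Real.sqrt_le_sqrt h3)
      (mul_nonneg hε hD.le)) (Real.sqrt_nonneg _))
  have h5 : Real.sqrt N * Real.sqrt N = N := Real.mul_self_sqrt hN0
  have h6 : Real.sqrt N ≤ ε * D * Real.sqrt (2 * M ^ 2 / D) := by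
    rcases (Real.sqrt_nonneg N).eq_or_lt with h7 | h7
    · rw [← h7]; positivity
    · refine le_of_mul_le_mul_right ?_ h7
      rw [h5]; exact h4
  have h7 : N ≤ (ε * D * Real.sqrt (2 * M ^ 2 / D)) ^ 2 := by
    rw [← h5, ← sq]
    exact pow_le_pow_left₀ (Real.sqrt_nonneg _) h6 2
  rw [mul_pow, mul_pow, Real.sq_sqrt (by positivity)] at h7
  refine h7.trans (le_of_eq ?_)
  field_simp

lemma noise_sum (hk : Ker D τ A C P) {M ε κ : ℝ} (hM : 1 ≤ M) (hε : 0 ≤ ε) (hκ : 0 ≤ κ)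
    {S St : Finset V} (hSt : (St.card : ℝ) ≤ κ * D) (hn : NoiseOK ε D A C P St) (hS : S ⊆ St)
    (f : V → ℝ) (hf0 : ∀ y, 0 ≤ f y) (hf : ∀ y, y ∉ S → f y = 0)
    (hf1 : ∑ y, f y ≤ 2 * M) (hf2 : ∑ y, f y ^ 2 ≤ 2 * M ^ 2 / D) :
    ∑ e ∈ St, ∑ y, f y * ((C y e - P y e) * (1 + P y e)) ≤ 4 * M * D + 2 * M * ε * D * Real.sqrt κ
    := by
  have hD := D_pos hk
  have h1 : ∑ e ∈ St, ∑ y, f y * ((C y e - P y e) * (1 + P y e)) ≤
      ∑ e ∈ St, ∑ y, (f y * (2 * A y e) - f y * nz A C P y e) := by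
    refine Finset.sum_le_sum fun e _ => Finset.sum_le_sum fun y _ => ?_
    rw [← mul_sub]
    refine mul_le_mul_of_nonneg_left ?_ (hf0 y)
    have h2 := hk.P_nonneg y e
    have h3 := P_le_one hk y e
    have h4 := A_nonneg hk y e
    unfold nz
    nlinarith [mul_nonneg h4 (sub_nonneg.mpr h3), mul_nonneg h2 h2]
  refine h1.trans ?_
  simp only [Finset.sum_sub_distrib]
  have h2 : ∑ e ∈ St, ∑ y, f y * (2 * A y e) ≤ 2 * M * (2 * D) := by
    refine sum_swap_le f hf0 (fun y e => 2 * A y e) St _ _ (fun y => ?_) (by positivity) hf1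
    rw [← Finset.mul_sum]
    refine mul_le_mul_of_nonneg_left ?_ zero_le_two
    exact (Finset.sum_le_sum_of_subset_of_nonneg (Finset.subset_univ _)
      fun e _ _ => A_nonneg hk y e).trans (hk.row y)
  have h3 : |∑ e ∈ St, ∑ y, f y * nz A C P y e| ≤ 2 * M * ε * D * Real.sqrt κ := by
    have h4 := hn f (fun _ => 1)
    have h5 : ∑ x ∈ St, ∑ y ∈ St, f x * 1 * nz A C P x y =
        ∑ e ∈ St, ∑ y, f y * nz A C P y e := by
      rw [Finset.sum_comm]
      refine Finset.sum_congr rfl fun e _ => ?_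
      simp only [mul_one]
      refine Finset.sum_subset (Finset.subset_univ _) fun y _ hy => ?_
      rw [hf y (fun h => hy (hS h)), zero_mul]
    rw [h5] at h4
    simp only [one_pow, Finset.sum_const, nsmul_eq_mul, mul_one] at h4
    refine h4.trans ?_
    have h6 : ∑ x ∈ St, f x ^ 2 ≤ 2 * M ^ 2 / D :=
      (Finset.sum_le_sum_of_subset_of_nonneg (Finset.subset_univ _)
        fun y _ _ => sq_nonneg _).trans hf2
    have h7 : Real.sqrt (∑ x ∈ St, f x ^ 2) * Real.sqrt (St.card : ℝ) ≤ 2 * M * Real.sqrt κ := by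
      rw [← Real.sqrt_mul (Finset.sum_nonneg fun e _ => sq_nonneg _)]
      have h8 : (∑ x ∈ St, f x ^ 2) * (St.card : ℝ) ≤ (2 * M) ^ 2 * κ := by
        calc (∑ x ∈ St, f x ^ 2) * (St.card : ℝ) ≤ (2 * M ^ 2 / D) * (κ * D) :=
              mul_le_mul h6 hSt (Nat.cast_nonneg _) (by positivity)
          _ = 2 * M ^ 2 * κ := by field_simp
          _ ≤ (2 * M) ^ 2 * κ := by nlinarith [mul_nonneg (sq_nonneg M) hκ]
      calc Real.sqrt ((∑ x ∈ St, f x ^ 2) * (St.card : ℝ)) ≤ Real.sqrt ((2 * M) ^ 2 * κ) :=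
            Real.sqrt_le_sqrt h8
        _ = 2 * M * Real.sqrt κ := by
            rw [Real.sqrt_mul (sq_nonneg _), Real.sqrt_sq (by linarith)]
    calc ε * D * Real.sqrt (∑ x ∈ St, f x ^ 2) * Real.sqrt (St.card : ℝ) =
          ε * D * (Real.sqrt (∑ x ∈ St, f x ^ 2) * Real.sqrt (St.card : ℝ)) := by ring
      _ ≤ ε * D * (2 * M * Real.sqrt κ) :=
          mul_le_mul_of_nonneg_left h7 (mul_nonneg hε hD.le)
      _ = 2 * M * ε * D * Real.sqrt κ := by ring
  have h4 := (abs_le.mp h3).1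
  linarith

end P3

open P3

/-- P3 -/
theorem noise_good {V : Type} [Fintype V] {D τ M η ε κ : ℝ} {A C P : V → V → ℝ}
    (hk : Ker D τ A C P) (hM : 1 ≤ M) (hη : 0 ≤ η) (hε : 0 ≤ ε) (hκ : 0 ≤ κ)
    {R : V → ℝ} (hR : ∀ y, 0 ≤ R y) (hRM : ∀ y, R y ≤ M) {S S' St : Finset V}
    (hSt : (St.card : ℝ) ≤ κ * D) (hn : NoiseOK ε D A C P St) (hS : S ⊆ St) (hS' : S' ⊆ St)
    {k : V → ℝ} (hk0 : ∀ y, 0 ≤ k y) (hk1 : ∀ y, k y ≤ 1) (hks : ∑ y ∈ S, k y ≤ 2 * D)
    (hout : ∀ e, e ∉ S' → ∑ y ∈ S, |dd A P y e| ≤ η * D) :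
    (∑ e, R e * Qf D A P S S' k R e ^ 2) / D ≤
      4 * M ^ 3 * ε ^ 2 + 32 * M ^ 3 * τ + 16 * M ^ 3 * τ * ε * Real.sqrt κ
        + 2 * M ^ 3 * η * (1 + 1 / τ ^ 2) := by
  have hD := D_pos hk
  have hτ := hk.tau_pos
  have hM0 : 0 ≤ M := by linarith
  obtain ⟨f, hf⟩ : ∃ f, f = ph D S k R := ⟨_, rfl⟩
  have hf0 : ∀ y, 0 ≤ f y := fun y => by rw [hf]; exact ph_nonneg hk S hR hk0 y
  have hfS : ∀ y, y ∉ S → f y = 0 := fun y hy => by rw [hf, ph, if_neg hy]
  have hf1 : ∑ y, f y ≤ 2 * M := by rw [hf]; exact ph_one hk hM S hR hRM hk0 hks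
  have hf2 : ∑ y, f y ^ 2 ≤ 2 * M ^ 2 / D := by
    rw [hf]; exact ph_two hk hM S hR hRM hk0 hk1 hks
  obtain ⟨a, ha⟩ : ∃ a : V → ℝ, ∀ e, a e = ∑ y, f y * nz A C P y e := ⟨_, fun e => rfl⟩
  obtain ⟨b, hb⟩ : ∃ b : V → ℝ, ∀ e, b e = ∑ y, f y * ((C y e - P y e) * (1 + P y e)) :=
    ⟨_, fun e => rfl⟩
  -- inside
  have hin : ∀ e ∈ S', Qf D A P S S' k R e = a e + b e := by
    intro e he
    rw [Qf, if_pos he, sum_ph (D := D) S k R (fun y => dd A P y e - P y e ^ 2), ha, hb, hf,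
      ← Finset.sum_add_distrib]
    exact Finset.sum_congr rfl fun y _ => by rw [dd_sub (C := C), mul_add]
  have hb0 : ∀ e, 0 ≤ b e := by
    intro e
    rw [hb]
    refine Finset.sum_nonneg fun y _ => mul_nonneg (hf0 y) (mul_nonneg ?_ ?_)
    · exact sub_nonneg.mpr (hk.P_le y e)
    · linarith [hk.P_nonneg y e]
  have hb1 : ∀ e, b e ≤ 4 * M * τ := by
    intro e
    rw [hb]
    calc ∑ y, f y * ((C y e - P y e) * (1 + P y e)) ≤ ∑ y, f y * (τ * 2) := by
          refine Finset.sum_le_sum fun y _ => mul_le_mul_of_nonneg_left ?_ (hf0 y)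
          refine mul_le_mul (hk.gap y e) ?_ ?_ hτ.le
          · linarith [P_le_one hk y e]
          · linarith [hk.P_nonneg y e]
      _ = (∑ y, f y) * (τ * 2) := by rw [Finset.sum_mul]
      _ ≤ 2 * M * (τ * 2) := mul_le_mul_of_nonneg_right hf1 (by linarith)
      _ = 4 * M * τ := by ring
  have hA2 : ∑ e ∈ St, a e ^ 2 ≤ 2 * M ^ 2 * ε ^ 2 * D := by
    simp only [ha]
    exact noise_sq hk hM hε hn hS f hfS hf2
  have hB1 : ∑ e ∈ St, b e ≤ 4 * M * D + 2 * M * ε * D * Real.sqrt κ := by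
    simp only [hb]
    exact noise_sum hk hM hε hκ hSt hn hS f hf0 hfS hf1 hf2
  have hinS : ∑ e ∈ S', R e * Qf D A P S S' k R e ^ 2 ≤
      M * (2 * (2 * M ^ 2 * ε ^ 2 * D) +
        2 * (4 * M * τ * (4 * M * D + 2 * M * ε * D * Real.sqrt κ))) := by
    calc ∑ e ∈ S', R e * Qf D A P S S' k R e ^ 2 ≤
          ∑ e ∈ S', M * (2 * a e ^ 2 + 2 * (4 * M * τ * b e)) := by
          refine Finset.sum_le_sum fun e he => ?_
          rw [hin e he]
          refine mul_le_mul (hRM e) ?_ (sq_nonneg _) hM0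
          have h1 : b e ^ 2 ≤ 4 * M * τ * b e := by
            rw [sq]; exact mul_le_mul_of_nonneg_right (hb1 e) (hb0 e)
          nlinarith [sq_nonneg (a e - b e)]
      _ ≤ ∑ e ∈ St, M * (2 * a e ^ 2 + 2 * (4 * M * τ * b e)) := by
          refine Finset.sum_le_sum_of_subset_of_nonneg hS' fun e _ _ => ?_
          have := hb0 e
          positivity
      _ = M * (2 * ∑ e ∈ St, a e ^ 2 + 2 * (4 * M * τ * ∑ e ∈ St, b e)) := by
          rw [← Finset.mul_sum, Finset.sum_add_distrib, ← Finset.mul_sum, ← Finset.mul_sum,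
            ← Finset.mul_sum]
      _ ≤ _ := by
          refine mul_le_mul_of_nonneg_left (add_le_add (mul_le_mul_of_nonneg_left hA2 zero_le_two)
            (mul_le_mul_of_nonneg_left (mul_le_mul_of_nonneg_left hB1 (by positivity))
              zero_le_two)) hM0
  -- outside
  have hq : ∀ e ∉ S', |Qf D A P S S' k R e| ≤ ∑ y, f y * |dd A P y e| := by
    intro e he
    rw [Qf, if_neg he, sum_ph (D := D) S k R (fun y => dd A P y e), ← hf]
    refine (Finset.abs_sum_le_sum_abs _ _).trans (Finset.sum_le_sum fun y _ => ?_)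
    rw [abs_mul, abs_of_nonneg (hf0 y)]
  have hq2 : ∀ e ∉ S', |Qf D A P S S' k R e| ≤ M * η := by
    intro e he
    refine (hq e he).trans ?_
    have h1 := sum_ph (D := D) S k R (fun y => |dd A P y e|)
    rw [hf, ← h1, div_le_iff₀ hD]
    calc ∑ y ∈ S, k y * R y * |dd A P y e| ≤ ∑ y ∈ S, M * |dd A P y e| := by
          refine Finset.sum_le_sum fun y _ => mul_le_mul_of_nonneg_right ?_ (abs_nonneg _)
          calc k y * R y ≤ 1 * M := mul_le_mul (hk1 y) (hRM y) (hR y) zero_le_one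
            _ = M := one_mul M
      _ = M * ∑ y ∈ S, |dd A P y e| := by rw [Finset.mul_sum]
      _ ≤ M * (η * D) := mul_le_mul_of_nonneg_left (hout e he) hM0
      _ = M * η * D := by ring
  have houtS : ∑ e ∈ S'ᶜ, R e * Qf D A P S S' k R e ^ 2 ≤
      M * (M * η) * (2 * M * ((1 + 1 / τ ^ 2) * D)) := by
    calc ∑ e ∈ S'ᶜ, R e * Qf D A P S S' k R e ^ 2 ≤
          ∑ e ∈ S'ᶜ, M * (M * η) * ∑ y, f y * |dd A P y e| := by
          refine Finset.sum_le_sum fun e he => ?_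
          rw [Finset.mem_compl] at he
          rw [mul_assoc M]
          refine mul_le_mul (hRM e) ?_ (sq_nonneg _) hM0
          rw [← sq_abs, sq]
          exact mul_le_mul (hq2 e he) (hq e he) (abs_nonneg _) (by positivity)
      _ = M * (M * η) * ∑ e ∈ S'ᶜ, ∑ y, f y * |dd A P y e| := by rw [Finset.mul_sum]
      _ ≤ _ := by
          refine mul_le_mul_of_nonneg_left ?_ (by positivity)
          refine sum_swap_le f hf0 (fun y e => |dd A P y e|) S'ᶜ _ _ (fun y => ?_)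
            (by positivity) hf1
          exact (Finset.sum_le_sum_of_subset_of_nonneg (Finset.subset_univ _)
            fun e _ _ => abs_nonneg _).trans (dd_row hk y)
  have htot : ∑ e, R e * Qf D A P S S' k R e ^ 2 =
      ∑ e ∈ S', R e * Qf D A P S S' k R e ^ 2 + ∑ e ∈ S'ᶜ, R e * Qf D A P S S' k R e ^ 2 :=
    (Finset.sum_add_sum_compl S' _).symm
  rw [div_le_iff₀ hD, htot]
  refine (add_le_add hinS houtS).trans (le_of_eq ?_)
  ring

/-- P3' -/
theorem noise_bad {V : Type} [Fintype V] {D τ M : ℝ} {A C P : V → V → ℝ}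
    (hk : Ker D τ A C P) (hM : 1 ≤ M)
    {R : V → ℝ} (hR : ∀ y, 0 ≤ R y) (hRM : ∀ y, R y ≤ M) (S S' : Finset V)
    {k : V → ℝ} (hk0 : ∀ y, 0 ≤ k y) (hk1 : ∀ y, k y ≤ 1) (hks : ∑ y ∈ S, k y ≤ 2 * D) :
    (∑ e, R e * Qf D A P S S' k R e ^ 2) / D ≤ 8 * M ^ 3 * (2 + 1 / τ ^ 2) := by
  have hD := D_pos hk
  have hτ := hk.tau_pos
  have hM0 : 0 ≤ M := by linarith
  obtain ⟨f, hf⟩ : ∃ f, f = ph D S k R := ⟨_, rfl⟩
  have hf0 : ∀ y, 0 ≤ f y := fun y => by rw [hf]; exact ph_nonneg hk S hR hk0 y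
  have hf1 : ∑ y, f y ≤ 2 * M := by rw [hf]; exact ph_one hk hM S hR hRM hk0 hks
  have hq : ∀ e, |Qf D A P S S' k R e| ≤ ∑ y, f y * (|dd A P y e| + P y e ^ 2) := by
    intro e
    rw [Qf]
    split_ifs with he
    · rw [sum_ph (D := D) S k R (fun y => dd A P y e - P y e ^ 2), ← hf]
      refine (Finset.abs_sum_le_sum_abs _ _).trans (Finset.sum_le_sum fun y _ => ?_)
      rw [abs_mul, abs_of_nonneg (hf0 y)]
      refine mul_le_mul_of_nonneg_left ?_ (hf0 y)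
      refine (abs_sub _ _).trans (le_of_eq ?_)
      rw [abs_of_nonneg (sq_nonneg (P y e))]
    · rw [sum_ph (D := D) S k R (fun y => dd A P y e), ← hf]
      refine (Finset.abs_sum_le_sum_abs _ _).trans (Finset.sum_le_sum fun y _ => ?_)
      rw [abs_mul, abs_of_nonneg (hf0 y)]
      exact mul_le_mul_of_nonneg_left (by linarith [sq_nonneg (P y e)]) (hf0 y)
  have hq2 : ∀ e, |Qf D A P S S' k R e| ≤ 4 * M := by
    intro e
    refine (hq e).trans ?_
    calc ∑ y, f y * (|dd A P y e| + P y e ^ 2) ≤ ∑ y, f y * 2 := by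
          refine Finset.sum_le_sum fun y _ => mul_le_mul_of_nonneg_left ?_ (hf0 y)
          have h1 := abs_dd_le_one hk y e
          have h2 : P y e ^ 2 ≤ 1 := pow_le_one₀ (hk.P_nonneg y e) (P_le_one hk y e)
          linarith
      _ = (∑ y, f y) * 2 := by rw [Finset.sum_mul]
      _ ≤ 2 * M * 2 := mul_le_mul_of_nonneg_right hf1 zero_le_two
      _ = 4 * M := by ring
  rw [div_le_iff₀ hD]
  calc ∑ e, R e * Qf D A P S S' k R e ^ 2 ≤
        ∑ e, M * (4 * M) * ∑ y, f y * (|dd A P y e| + P y e ^ 2) := by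
        refine Finset.sum_le_sum fun e _ => ?_
        rw [mul_assoc M]
        refine mul_le_mul (hRM e) ?_ (sq_nonneg _) hM0
        rw [← sq_abs, sq]
        exact mul_le_mul (hq2 e) (hq e) (abs_nonneg _) (by positivity)
    _ = M * (4 * M) * ∑ e, ∑ y, f y * (|dd A P y e| + P y e ^ 2) := by rw [Finset.mul_sum]
    _ ≤ M * (4 * M) * (2 * M * ((2 + 1 / τ ^ 2) * D)) := by
        refine mul_le_mul_of_nonneg_left ?_ (by positivity)
        refine sum_swap_le f hf0 (fun y e => |dd A P y e| + P y e ^ 2) univ _ _ (fun y => ?_)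
          (by positivity) hf1
        rw [Finset.sum_add_distrib]
        have h1 := dd_row hk y
        have h2 := P_row hk y
        have h3 : (2 + 1 / τ ^ 2) * D = (1 + 1 / τ ^ 2) * D + D := by ring
        linarith
    _ = 8 * M ^ 3 * (2 + 1 / τ ^ 2) * D := by ring

end Pool.Agent.H48.Vu
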