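import Pool.Agent.H48.Vu.Defs

set_option autoImplicit false
set_option linter.unusedVariables false

namespace Pool.Agent.H48.Vu

open Finset Pool.Agent.Helper85.Vu
open scoped Classical

/-! ## P4: schedules -/

theorem exp_sub_le_aux (x y : ℝ) : Real.exp y - Real.exp x ≤ (y - x) * Real.exp y := by
  have h1 := Real.add_one_le_exp (x - y)
  have h2 : Real.exp x = Real.exp (x - y) * Real.exp y := by
    rw [← Real.exp_add]; congr 1; ring
  have h3 := Real.exp_pos y
  nlinarith

theorem le_exp_sub_aux (x y : ℝ) : (y - x) * Real.exp x ≤ Real.exp y - Real.exp x := by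
  have h1 := exp_sub_le_aux y x
  linarith

/-- P4 -/
theorem sched (z T M : ℝ) (hz : 0 < z) (hT : 0 < T) (hzT : z * T < 1) (hM : 1 ≤ M) :
    ∃ (N : ℕ) (g : ℕ → ℝ → ℝ) (gs : ℝ → ℝ) (G L : ℝ), 0 ≤ G ∧ 0 ≤ L ∧
      (∀ j, z ≤ g j 0) ∧ 2 ≤ gs 0 ∧
      (∀ j t, 0 ≤ t → t ≤ T → 0 ≤ g j t) ∧
      (∀ t, 0 ≤ t → t ≤ T → M ≤ g N t) ∧
      (∀ j t h, j < N → 0 ≤ t → 0 < h → t + h ≤ T → g j t ≤ g j (t + h) ∧
        g j (t + h) - g j t ≤ L * h ∧
        (g j t < M → h * (g j t * g (j + 1) t) ≤ g j (t + h) - g j t ∧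
          g (j + 1) t ≤ G)) ∧
      (∀ t h, 0 ≤ t → 0 < h → t + h ≤ T → gs t ≤ gs (t + h) ∧ gs (t + h) - gs t ≤ L * h ∧
        h * (gs t * g 0 t) ≤ gs (t + h) - gs t ∧ g 0 t ≤ G) ∧
      (∀ t, 0 ≤ t → t ≤ T → 0 ≤ gs t ∧ gs t ≤ 2 * Real.exp ((z / (1 - z * T) + 1) * T)) := by
  set H : ℝ := z / (1 - z * T) with hH
  have hden : 0 < 1 - z * T := by linarith
  have hH0 : 0 < H := div_pos hz hden
  set e : ℝ := Real.exp 1 with he
  have he1 : 1 ≤ e := by
    have := Real.add_one_le_exp (1 : ℝ)
    linarith
  set μ : ℝ := (1 + e) * H + e * M with hμ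
  have hμ0 : 0 < μ := by positivity
  obtain ⟨N, hN⟩ := exists_nat_ge (μ * T + Real.log M)
  have hM0 : 0 < M := by linarith
  -- the function hh
  set hh : ℝ → ℝ := fun t => z / (1 - z * t) with hhh
  have hden' : ∀ t, t ≤ T → 1 - z * T ≤ 1 - z * t := by
    intro t ht
    have : z * t ≤ z * T := by gcongr
    linarith
  have hhpos : ∀ t, t ≤ T → 0 < hh t := fun t ht => div_pos hz (by linarith [hden' t ht])
  have hhle : ∀ t, t ≤ T → hh t ≤ H := by
    intro t ht
    rw [hhh, hH]
    exact div_le_div_of_nonneg_left hz.le hden (hden' t ht)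
  have hhdiff : ∀ t h, t + h ≤ T → 0 < h → hh (t + h) - hh t = h * (hh t * hh (t + h)) := by
    intro t h ht hh0
    have h1 : 1 - z * t ≠ 0 := by
      have := hden' t (by linarith)
      linarith
    have h2 : 1 - z * (t + h) ≠ 0 := by
      have := hden' (t + h) ht
      linarith
    rw [hhh]
    simp only
    field_simp
    ring
  have hhmono : ∀ t h, t + h ≤ T → 0 < h → hh t ≤ hh (t + h) := by
    intro t h ht hh0
    have h1 := hhdiff t h ht hh0
    have h2 := hhpos t (by linarith)
    have h3 := hhpos (t + h) ht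
    have : 0 < h * (hh t * hh (t + h)) := by positivity
    linarith
  -- the functions a_j
  set a : ℕ → ℝ → ℝ := fun j t => M * Real.exp (μ * t - ((N : ℝ) - j)) with ha
  have hapos : ∀ j t, 0 < a j t := fun j t => by rw [ha]; positivity
  have hasucc : ∀ j t, a (j + 1) t = e * a j t := by
    intro j t
    rw [ha, he]
    simp only
    have : μ * t - ((N : ℝ) - ((j + 1 : ℕ) : ℝ)) = 1 + (μ * t - ((N : ℝ) - j)) := by
      push_cast; ring
    rw [this, Real.exp_add]
    ring
  have halow : ∀ j t h, μ * h * a j t ≤ a j (t + h) - a j t := by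
    intro j t h
    have h1 := le_exp_sub_aux (μ * t - ((N : ℝ) - j)) (μ * (t + h) - ((N : ℝ) - j))
    rw [ha]
    simp only
    have h2 : μ * (t + h) - ((N : ℝ) - j) - (μ * t - ((N : ℝ) - j)) = μ * h := by ring
    rw [h2] at h1
    have h3 := mul_le_mul_of_nonneg_left h1 hM0.le
    calc μ * h * (M * Real.exp (μ * t - ((N : ℝ) - j)))
        = M * (μ * h * Real.exp (μ * t - ((N : ℝ) - j))) := by ring
      _ ≤ _ := h3
      _ = _ := by ring
  have haup : ∀ j t h, j < N → 0 < h → t + h ≤ T →
      a j (t + h) - a j t ≤ M * μ * Real.exp (μ * T) * h := by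
    intro j t h hj hh0 hth
    have h1 := exp_sub_le_aux (μ * t - ((N : ℝ) - j)) (μ * (t + h) - ((N : ℝ) - j))
    rw [ha]
    simp only
    have h2 : μ * (t + h) - ((N : ℝ) - j) - (μ * t - ((N : ℝ) - j)) = μ * h := by ring
    rw [h2] at h1
    have hjN : (j : ℝ) ≤ N := by exact_mod_cast hj.le
    have h3 : Real.exp (μ * (t + h) - ((N : ℝ) - j)) ≤ Real.exp (μ * T) := by
      apply Real.exp_le_exp.mpr
      have : μ * (t + h) ≤ μ * T := by gcongr
      linarith
    have h4 : μ * h * Real.exp (μ * (t + h) - ((N : ℝ) - j)) ≤ μ * h * Real.exp (μ * T) := by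
      gcongr
    have h5 := mul_le_mul_of_nonneg_left (h1.trans h4) hM0.le
    calc _ = M * (Real.exp (μ * (t + h) - ((N : ℝ) - j)) - Real.exp (μ * t - ((N : ℝ) - j))) := by
          ring
      _ ≤ _ := h5
      _ = _ := by ring
  have ha0 : ∀ t, t ≤ T → a 0 t ≤ 1 := by
    intro t ht
    rw [ha]
    simp only
    have h1 : M = Real.exp (Real.log M) := (Real.exp_log hM0).symm
    have h2 : M * Real.exp (μ * t - ((N : ℝ) - ((0 : ℕ) : ℝ))) =
        Real.exp (Real.log M + (μ * t - ((N : ℝ) - ((0 : ℕ) : ℝ)))) := by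
      rw [Real.exp_add, Real.exp_log hM0]
    rw [h2]
    apply Real.exp_le_one_iff.mpr
    have h3 : μ * t ≤ μ * T := by gcongr
    push_cast
    linarith
  set G : ℝ := H + e * M with hG
  set L : ℝ := H ^ 2 + M * μ * Real.exp (μ * T) + 2 * (H + 1) * Real.exp ((H + 1) * T) with hL
  have hG0 : 0 ≤ G := by positivity
  have hL0 : 0 ≤ L := by positivity
  have hg0G : ∀ t, t ≤ T → hh t + a 0 t ≤ H + 1 := by
    intro t ht
    linarith [hhle t ht, ha0 t ht]
  have heM : 1 ≤ e * M := by nlinarith
  refine ⟨N, fun j t => hh t + a j t, fun t => 2 * Real.exp ((H + 1) * t), G, L, hG0, hL0,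
    ?_, ?_, ?_, ?_, ?_, ?_, ?_⟩
  · intro j
    have h1 : hh 0 = z := by rw [hhh]; simp
    have h2 := hapos j 0
    simp only
    linarith
  · simp
  · intro j t _ ht
    have := hhpos t ht
    have := hapos j t
    simp only
    linarith
  · intro t ht0 ht
    have h1 := hhpos t ht
    have h2 : M ≤ a N t := by
      rw [ha]
      simp only [sub_self, sub_zero]
      have : 1 ≤ Real.exp (μ * t) := Real.one_le_exp (by positivity)
      nlinarith
    simp only
    linarith
  · intro j t h hj ht hh0 hth
    have htT : t ≤ T := by linarith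
    have h1 := hhdiff t h hth hh0
    have h2 := hhpos t htT
    have h3 := hhpos (t + h) hth
    have h4 := hhle t htT
    have h5 := hhle (t + h) hth
    have h6 := hhmono t h hth hh0
    have h7 := hapos j t
    have h8 := halow j t h
    have h9 := haup j t h hj hh0 hth
    have h10 : 0 < μ * h * a j t := by positivity
    refine ⟨?_, ?_, ?_⟩
    · simp only
      linarith
    · simp only
      have h11 : hh t * hh (t + h) ≤ H ^ 2 := by
        rw [sq]
        exact mul_le_mul h4 h5 h3.le hH0.le
      have h12 : h * (hh t * hh (t + h)) ≤ h * H ^ 2 := by gcongr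
      have h13 : 0 ≤ 2 * (H + 1) * Real.exp ((H + 1) * T) * h := by positivity
      rw [hL]
      nlinarith
    · intro hlt
      simp only at hlt
      have haM : a j t < M := by linarith
      refine ⟨?_, ?_⟩
      · simp only
        rw [hasucc]
        have h11 : hh t * hh t ≤ hh t * hh (t + h) := by gcongr
        have h12 : (hh t + a j t) * (hh t + e * a j t) ≤ hh t * hh (t + h) + μ * a j t := by
          have e1 : (hh t + a j t) * (hh t + e * a j t) =
              hh t * hh t + ((1 + e) * hh t + e * a j t) * a j t := by ring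
          have e2 : (1 + e) * hh t + e * a j t ≤ μ := by
            rw [hμ]
            have : (1 + e) * hh t ≤ (1 + e) * H := by gcongr
            have : e * a j t ≤ e * M := by gcongr
            linarith
          have e3 : ((1 + e) * hh t + e * a j t) * a j t ≤ μ * a j t := by gcongr
          rw [e1]
          linarith
        calc h * ((hh t + a j t) * (hh t + e * a j t))
            ≤ h * (hh t * hh (t + h) + μ * a j t) := by gcongr
          _ = h * (hh t * hh (t + h)) + μ * h * a j t := by ring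
          _ ≤ _ := by linarith
      · simp only
        rw [hasucc, hG]
        have : e * a j t ≤ e * M := by gcongr
        linarith
  · intro t h ht hh0 hth
    have htT : t ≤ T := by linarith
    have hH1 : 0 < H + 1 := by linarith
    have h1 := exp_sub_le_aux ((H + 1) * t) ((H + 1) * (t + h))
    have h2 := le_exp_sub_aux ((H + 1) * t) ((H + 1) * (t + h))
    have h3 : (H + 1) * (t + h) - (H + 1) * t = (H + 1) * h := by ring
    rw [h3] at h1 h2
    have h4 := Real.exp_pos ((H + 1) * t)
    have h5 : Real.exp ((H + 1) * (t + h)) ≤ Real.exp ((H + 1) * T) := by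
      apply Real.exp_le_exp.mpr
      gcongr
    have h6 : 0 < (H + 1) * h * Real.exp ((H + 1) * t) := by positivity
    refine ⟨?_, ?_, ?_, ?_⟩
    · simp only
      linarith
    · simp only
      have h7 : (H + 1) * h * Real.exp ((H + 1) * (t + h)) ≤
          (H + 1) * h * Real.exp ((H + 1) * T) := by gcongr
      have h8 : 0 ≤ (H ^ 2 + M * μ * Real.exp (μ * T)) * h := by positivity
      rw [hL]
      nlinarith
    · simp only
      have h7 := hg0G t htT
      have h8 : Real.exp ((H + 1) * t) * (hh t + a 0 t) ≤ Real.exp ((H + 1) * t) * (H + 1) := by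
        gcongr
      calc h * (2 * Real.exp ((H + 1) * t) * (hh t + a 0 t))
          = 2 * h * (Real.exp ((H + 1) * t) * (hh t + a 0 t)) := by ring
        _ ≤ 2 * h * (Real.exp ((H + 1) * t) * (H + 1)) := by gcongr
        _ = 2 * ((H + 1) * h * Real.exp ((H + 1) * t)) := by ring
        _ ≤ _ := by linarith
    · have h7 := hg0G t htT
      rw [hG]
      linarith
  · intro t ht0 ht
    refine ⟨by positivity, ?_⟩
    simp only
    have : Real.exp ((H + 1) * t) ≤ Real.exp ((H + 1) * T) := by
      apply Real.exp_le_exp.mpr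
      have : 0 < H + 1 := by linarith
      gcongr
    linarith

end Pool.Agent.H48.Vu
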