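import Pool.Agent.H48.Vu.P1
import Pool.Agent.H48.Vu.P2

set_option autoImplicit false
set_option linter.unusedVariables false

namespace Pool.Agent.H48.Vu

open Finset Pool.Agent.Helper85.Vu
open scoped Classical

section ExLin

variable {V : Type} [Fintype V] (D : ℝ) (A P : V → V → ℝ) (h : ℝ) (R : V → ℝ)

theorem Ex_add (Φ Ψ : (V → ℝ) → ℝ) :
    Ex D A P h R (fun R' => Φ R' + Ψ R') = Ex D A P h R Φ + Ex D A P h R Ψ := by
  unfold Ex
  simp only [mul_add, Finset.sum_add_distrib]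
  ring

theorem Ex_mul (c : ℝ) (Φ : (V → ℝ) → ℝ) :
    Ex D A P h R (fun R' => c * Φ R') = c * Ex D A P h R Φ := by
  unfold Ex
  rw [mul_add, Finset.mul_sum]
  congr 1
  · apply Finset.sum_congr rfl
    intro e _
    ring
  · ring

theorem Ex_div (c : ℝ) (Φ : (V → ℝ) → ℝ) :
    Ex D A P h R (fun R' => Φ R' / c) = Ex D A P h R Φ / c := by
  have := Ex_mul D A P h R c⁻¹ Φ
  simp only [div_eq_inv_mul]
  exact this

theorem Ex_fsum {ι : Type} (s : Finset ι) (Φ : ι → (V → ℝ) → ℝ) :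
    Ex D A P h R (fun R' => ∑ i ∈ s, Φ i R') = ∑ i ∈ s, Ex D A P h R (Φ i) := by
  unfold Ex
  rw [Finset.sum_add_distrib, Finset.sum_comm, Finset.mul_sum]
  congr 1
  apply Finset.sum_congr rfl
  intro e _
  rw [Finset.mul_sum]

theorem Ex_const (c : ℝ) : Ex D A P h R (fun _ => c) = c := by
  unfold Ex
  rw [← Finset.sum_mul, ← Finset.mul_sum, ← Finset.sum_div]
  ring

end ExLin

/-- the star part of the excess potential -/
noncomputable def star {V : Type} [Fintype V] (D : ℝ) (A P : V → V → ℝ) (gs : ℝ)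
    (R : V → ℝ) : ℝ :=
  (∑ u, pp (nu D A P u R - gs) ^ 2) / Fintype.card V

/-- level `j` of the excess potential -/
noncomputable def lev {V : Type} [Fintype V] (η D : ℝ) (A P : V → V → ℝ) (j : ℕ) (g : ℝ)
    (R : V → ℝ) : ℝ :=
  (∑ u, ∑ x, wg η D A P u j x * pp (sj η D A P u j x R - g) ^ 2) / (Fintype.card V * D)

theorem Ph_eq {V : Type} [Fintype V] (η D : ℝ) (A P : V → V → ℝ) (N : ℕ) (gs : ℝ) (g : ℕ → ℝ)
    (R : V → ℝ) :
    Ph η D A P N gs g R = star D A P gs R + ∑ j ∈ range N, lev η D A P j (g j) R := rfl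

theorem lev_nonneg {V : Type} [Fintype V] {D τ : ℝ} {A C P : V → V → ℝ} (hk : Ker D τ A C P)
    (η : ℝ) (j : ℕ) (g : ℝ) (R : V → ℝ) : 0 ≤ lev η D A P j g R := by
  unfold lev
  have hD : 0 ≤ D := by linarith [hk.one_le]
  apply div_nonneg _ (by positivity)
  apply Finset.sum_nonneg
  intro u _
  apply Finset.sum_nonneg
  intro x _
  exact mul_nonneg (wg_nonneg hk η u j x) (sq_nonneg _)

theorem P_sq_col {V : Type} [Fintype V] {D τ : ℝ} {A C P : V → V → ℝ} (hk : Ker D τ A C P)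
    (x : V) : ∑ y, P y x ^ 2 ≤ D := by
  refine le_trans (Finset.sum_le_sum fun y _ => ?_) (hk.C_row x)
  rw [hk.P_symm y x]
  have h1 := hk.P_nonneg x y
  have h2 := hk.P_le x y
  nlinarith

theorem sj_le {V : Type} [Fintype V] {D τ : ℝ} {A C P : V → V → ℝ} (hk : Ker D τ A C P)
    (η : ℝ) (u : V) (j : ℕ) (x : V) {M : ℝ} (hM : 0 ≤ M) {R : V → ℝ} (hR : ∀ y, 0 ≤ R y)
    (hRM : ∀ y, R y ≤ M) : sj η D A P u j x R ≤ M := by
  have hD : 0 < D := by linarith [hk.one_le]
  unfold sj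
  rw [div_le_iff₀ hD]
  calc ∑ y ∈ Sr η D A P u (j + 1), P y x ^ 2 * R y
      ≤ ∑ y ∈ Sr η D A P u (j + 1), P y x ^ 2 * M := by
        apply Finset.sum_le_sum
        intro y _
        exact mul_le_mul_of_nonneg_left (hRM y) (sq_nonneg _)
    _ ≤ ∑ y, P y x ^ 2 * M := by
        apply Finset.sum_le_sum_of_subset_of_nonneg (Finset.subset_univ _)
        intro y _ _
        positivity
    _ = (∑ y, P y x ^ 2) * M := by rw [Finset.sum_mul]
    _ ≤ D * M := mul_le_mul_of_nonneg_right (P_sq_col hk x) hM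
    _ = M * D := by ring

theorem sj_nonneg {V : Type} [Fintype V] {D τ : ℝ} {A C P : V → V → ℝ} (hk : Ker D τ A C P)
    (η : ℝ) (u : V) (j : ℕ) (x : V) {R : V → ℝ} (hR : ∀ y, 0 ≤ R y) :
    0 ≤ sj η D A P u j x R := by
  have hD : 0 < D := by linarith [hk.one_le]
  unfold sj
  apply div_nonneg _ hD.le
  exact Finset.sum_nonneg fun y _ => mul_nonneg (sq_nonneg _) (hR y)

theorem nu_le {V : Type} [Fintype V] {D τ : ℝ} {A C P : V → V → ℝ} (hk : Ker D τ A C P)
    (u : V) {M : ℝ} (hM : 0 ≤ M) {R : V → ℝ} (hR : ∀ y, 0 ≤ R y)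
    (hRM : ∀ y, R y ≤ M) : nu D A P u R ≤ 2 * M := by
  have hD : 0 < D := by linarith [hk.one_le]
  unfold nu
  rw [div_le_iff₀ hD]
  calc ∑ y, dd A P u y ^ 2 * R y
      ≤ ∑ y, dd A P u y ^ 2 * M := by
        apply Finset.sum_le_sum
        intro y _
        exact mul_le_mul_of_nonneg_left (hRM y) (sq_nonneg _)
    _ = (∑ y, dd A P u y ^ 2) * M := by rw [Finset.sum_mul]
    _ ≤ (2 * D) * M := mul_le_mul_of_nonneg_right (dd_sq_row hk u) hM
    _ = 2 * M * D := by ring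

theorem nu_nonneg {V : Type} [Fintype V] {D τ : ℝ} {A C P : V → V → ℝ} (hk : Ker D τ A C P)
    (u : V) {R : V → ℝ} (hR : ∀ y, 0 ≤ R y) : 0 ≤ nu D A P u R := by
  have hD : 0 < D := by linarith [hk.one_le]
  unfold nu
  apply div_nonneg _ hD.le
  exact Finset.sum_nonneg fun y _ => mul_nonneg (sq_nonneg _) (hR y)

theorem nu_eq {V : Type} [Fintype V] {D τ : ℝ} {A C P : V → V → ℝ} (hk : Ker D τ A C P)
    (η : ℝ) (u : V) (R : V → ℝ) :
    nu D A P u R = (∑ y ∈ Sr η D A P u 0, dd A P u y ^ 2 * R y) / D := by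
  unfold nu
  congr 1
  symm
  apply Finset.sum_subset (Finset.subset_univ _)
  intro y _ hy
  have : dd A P u y = 0 := by
    by_contra hne
    exact hy (Sr_zero hk η u y hne)
  rw [this]; ring

theorem star_step {V : Type} [Fintype V] {D τ : ℝ} {A C P : V → V → ℝ} (hk : Ker D τ A C P)
    (hV : 0 < Fintype.card V) (η : ℝ) {M : ℝ} (hM : 1 ≤ M)
    {h : ℝ} (hh : 0 ≤ h) {R : V → ℝ} (hR : ∀ y, 0 ≤ R y) (hRM : ∀ y, R y ≤ M)
    {Z : ℝ} (hZ : Z = (∑ y, R y) / D) (hZ1 : h * Z ≤ 1)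
    {gs gs' g0 : ℝ} {G L : ℝ} (hG : 0 ≤ G) (hL : 0 ≤ L)
    (hg0 : 0 ≤ g0) (hgs0 : 0 ≤ gs)
    (hgs : gs ≤ gs' ∧ gs' - gs ≤ L * h ∧ h * (gs * g0) ≤ gs' - gs ∧ g0 ≤ G) :
    Ex D A P h R (star D A P gs') ≤
      star D A P gs R
        + h * ((2 * G + 1) * star D A P gs R + 2 * M ^ 2 * lev η D A P 0 g0 R
          + Nz η D A P R 0)
        + h ^ 2 * (3 * Z ^ 4 + L ^ 2) := by
  have hD : 0 < D := by linarith [hk.one_le]
  have hn : (0 : ℝ) < Fintype.card V := by exact_mod_cast hV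
  obtain ⟨h1, h2, h3, h4⟩ := hgs
  have hsq : (gs' - gs) ^ 2 ≤ h ^ 2 * L ^ 2 := by
    have : 0 ≤ gs' - gs := by linarith
    nlinarith [mul_nonneg hL hh]
  -- one vertex
  have key : ∀ u, Ex D A P h R (fun R' => pp (nu D A P u R' - gs') ^ 2) ≤
      pp (nu D A P u R - gs) ^ 2 + h * ((2 * G + 1) * pp (nu D A P u R - gs) ^ 2
        + 2 * M ^ 2 * ((∑ y, wg η D A P u 0 y * pp (sj η D A P u 0 y R - g0) ^ 2) / D)
        + (∑ e, R e * Qf D A P (Sr η D A P u 0) (Sr η D A P u 1)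
            (fun y => dd A P u y ^ 2) R e ^ 2) / D)
        + h ^ 2 * (3 * Z ^ 4 + L ^ 2) := by
    intro u
    have hgen := gen_step hk hh hR hZ hZ1 (Sr η D A P u 0) (Sr η D A P u 1)
      (k := fun y => dd A P u y ^ 2) (fun y => sq_nonneg _)
      (fun y => by
        have := dd_abs_le hk u y
        have h2 := abs_le.mp this
        nlinarith)
      (g := gs) (g' := gs') (γ := g0) (G := G) (s := nu D A P u R) hgs0 h1 hG
      (nu_eq hk η u R) (fun _ => ⟨h3, hg0, h4⟩)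
    have e1 : (fun R' : V → ℝ => pp ((∑ y ∈ Sr η D A P u 0, (fun y => dd A P u y ^ 2) y * R' y)
        / D - gs') ^ 2) = fun R' => pp (nu D A P u R' - gs') ^ 2 := by
      funext R'
      rw [nu_eq hk η u R']
    rw [e1] at hgen
    refine hgen.trans ?_
    have hcross : nu D A P u R * ((∑ y ∈ Sr η D A P u 0, (fun y => dd A P u y ^ 2) y * R y *
        pp ((∑ e ∈ Sr η D A P u 1, P e y ^ 2 * R e) / D - g0) ^ 2) / D) ≤
        2 * M ^ 2 * ((∑ y, wg η D A P u 0 y * pp (sj η D A P u 0 y R - g0) ^ 2) / D) := by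
      have hb : (∑ y ∈ Sr η D A P u 0, (fun y => dd A P u y ^ 2) y * R y *
          pp ((∑ e ∈ Sr η D A P u 1, P e y ^ 2 * R e) / D - g0) ^ 2) / D ≤
          M * ((∑ y, wg η D A P u 0 y * pp (sj η D A P u 0 y R - g0) ^ 2) / D) := by
        rw [← mul_div_assoc, div_le_div_iff_of_pos_right hD, Finset.mul_sum]
        refine le_trans (Finset.sum_le_sum (g := fun y => M * (wg η D A P u 0 y *
          pp (sj η D A P u 0 y R - g0) ^ 2)) fun y _ => ?_) ?_
        · have e2 : sj η D A P u 0 y R = (∑ e ∈ Sr η D A P u 1, P e y ^ 2 * R e) / D := rfl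
          have e3 : wg η D A P u 0 y = dd A P u y ^ 2 := rfl
          rw [e2, e3]
          have hq : 0 ≤ dd A P u y ^ 2 * pp ((∑ e ∈ Sr η D A P u 1, P e y ^ 2 * R e) / D - g0) ^ 2 := by
            positivity
          calc (fun y => dd A P u y ^ 2) y * R y *
                pp ((∑ e ∈ Sr η D A P u 1, P e y ^ 2 * R e) / D - g0) ^ 2
              = R y * (dd A P u y ^ 2 *
                pp ((∑ e ∈ Sr η D A P u 1, P e y ^ 2 * R e) / D - g0) ^ 2) := by ring
            _ ≤ M * (dd A P u y ^ 2 *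
                pp ((∑ e ∈ Sr η D A P u 1, P e y ^ 2 * R e) / D - g0) ^ 2) :=
                mul_le_mul_of_nonneg_right (hRM y) hq
        · apply Finset.sum_le_sum_of_subset_of_nonneg (Finset.subset_univ _)
          intro y _ _
          exact mul_nonneg (by linarith) (mul_nonneg (wg_nonneg hk η u 0 y) (sq_nonneg _))
      have hn0 := nu_nonneg hk u hR
      have hn1 := nu_le hk u (by linarith : (0:ℝ) ≤ M) hR hRM
      have hq : 0 ≤ (∑ y, wg η D A P u 0 y * pp (sj η D A P u 0 y R - g0) ^ 2) / D := by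
        apply div_nonneg _ hD.le
        exact Finset.sum_nonneg fun y _ => mul_nonneg (wg_nonneg hk η u 0 y) (sq_nonneg _)
      calc _ ≤ nu D A P u R *
            (M * ((∑ y, wg η D A P u 0 y * pp (sj η D A P u 0 y R - g0) ^ 2) / D)) :=
            mul_le_mul_of_nonneg_left hb hn0
        _ ≤ (2 * M) * (M * ((∑ y, wg η D A P u 0 y * pp (sj η D A P u 0 y R - g0) ^ 2) / D)) :=
            mul_le_mul_of_nonneg_right hn1 (mul_nonneg (by linarith) hq)
        _ = _ := by ring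
    have hmul := mul_le_mul_of_nonneg_left hcross hh
    nlinarith [hsq, hmul]
  -- sum over the vertices
  have hsum : Ex D A P h R (star D A P gs') =
      (∑ u, Ex D A P h R (fun R' => pp (nu D A P u R' - gs') ^ 2)) / Fintype.card V := by
    have : star D A P gs' = fun R' => (∑ u, pp (nu D A P u R' - gs') ^ 2) / Fintype.card V := rfl
    rw [this, Ex_div, Ex_fsum]
  rw [hsum, div_le_iff₀ hn]
  refine (Finset.sum_le_sum fun u _ => key u).trans (le_of_eq ?_)
  unfold star lev Nz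
  simp only [Finset.sum_add_distrib, ← Finset.mul_sum, Finset.sum_const, Finset.card_univ,
    nsmul_eq_mul, ← Finset.sum_div]
  field_simp

theorem lev_step {V : Type} [Fintype V] {D τ : ℝ} {A C P : V → V → ℝ} (hk : Ker D τ A C P)
    (hV : 0 < Fintype.card V) (η : ℝ) {M : ℝ} (hM : 1 ≤ M)
    {h : ℝ} (hh : 0 ≤ h) {R : V → ℝ} (hR : ∀ y, 0 ≤ R y) (hRM : ∀ y, R y ≤ M)
    {Z : ℝ} (hZ : Z = (∑ y, R y) / D) (hZ1 : h * Z ≤ 1) (j : ℕ)
    {g g' g1 : ℝ} {G L : ℝ} (hG : 0 ≤ G) (hL : 0 ≤ L)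
    (hg1 : 0 ≤ g1) (hg0 : 0 ≤ g)
    (hg : g ≤ g' ∧ g' - g ≤ L * h ∧ (g < M → h * (g * g1) ≤ g' - g ∧ g1 ≤ G)) :
    Ex D A P h R (lev η D A P j g') ≤
      lev η D A P j g R
        + h * ((2 * G + 1) * lev η D A P j g R + M ^ 2 * lev η D A P (j + 1) g1 R
          + Nz η D A P R (j + 1))
        + h ^ 2 * (2 * (3 * Z ^ 4 + L ^ 2)) := by
  have hD : 0 < D := by linarith [hk.one_le]
  have hn : (0 : ℝ) < Fintype.card V := by exact_mod_cast hV
  obtain ⟨h1, h2, h3⟩ := hg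
  have hsq : (g' - g) ^ 2 ≤ h ^ 2 * L ^ 2 := by
    have : 0 ≤ g' - g := by linarith
    nlinarith [mul_nonneg hL hh]
  have hZ0 : 0 ≤ Z := by
    rw [hZ]; exact div_nonneg (Finset.sum_nonneg fun y _ => hR y) hD.le
  -- one pair
  have key : ∀ u x, Ex D A P h R (fun R' => pp (sj η D A P u j x R' - g') ^ 2) ≤
      pp (sj η D A P u j x R - g) ^ 2 + h * ((2 * G + 1) * pp (sj η D A P u j x R - g) ^ 2
        + M ^ 2 * ((∑ y ∈ Sr η D A P u (j + 1), P y x ^ 2 *
            pp (sj η D A P u (j + 1) y R - g1) ^ 2) / D)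
        + (∑ e, R e * Qf D A P (Sr η D A P u (j + 1)) (Sr η D A P u (j + 2))
            (fun y => P y x ^ 2) R e ^ 2) / D)
        + h ^ 2 * (3 * Z ^ 4 + L ^ 2) := by
    intro u x
    have hs0 := sj_nonneg hk η u j x hR
    have hs1 := sj_le hk η u j x (by linarith : (0:ℝ) ≤ M) hR hRM
    have hgen := gen_step hk hh hR hZ hZ1 (Sr η D A P u (j + 1)) (Sr η D A P u (j + 2))
      (k := fun y => P y x ^ 2) (fun y => sq_nonneg _)
      (fun y => by
        have a1 := hk.P_nonneg y x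
        have a2 := hk.P_le y x
        have a3 := hk.C_le y x
        have : P y x ≤ 1 := a2.trans a3
        nlinarith)
      (g := g) (g' := g') (γ := g1) (G := G) (s := sj η D A P u j x R) hg0 h1 hG
      rfl (fun hlt => ⟨(h3 (lt_of_lt_of_le hlt hs1)).1, hg1, (h3 (lt_of_lt_of_le hlt hs1)).2⟩)
    have e1 : (fun R' : V → ℝ => pp ((∑ y ∈ Sr η D A P u (j + 1), (fun y => P y x ^ 2) y * R' y)
        / D - g') ^ 2) = fun R' => pp (sj η D A P u j x R' - g') ^ 2 := rfl
    rw [e1] at hgen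
    refine hgen.trans ?_
    have hcross : sj η D A P u j x R * ((∑ y ∈ Sr η D A P u (j + 1), (fun y => P y x ^ 2) y * R y *
        pp ((∑ e ∈ Sr η D A P u (j + 2), P e y ^ 2 * R e) / D - g1) ^ 2) / D) ≤
        M ^ 2 * ((∑ y ∈ Sr η D A P u (j + 1), P y x ^ 2 *
            pp (sj η D A P u (j + 1) y R - g1) ^ 2) / D) := by
      have hb : (∑ y ∈ Sr η D A P u (j + 1), (fun y => P y x ^ 2) y * R y *
          pp ((∑ e ∈ Sr η D A P u (j + 2), P e y ^ 2 * R e) / D - g1) ^ 2) / D ≤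
          M * ((∑ y ∈ Sr η D A P u (j + 1), P y x ^ 2 *
            pp (sj η D A P u (j + 1) y R - g1) ^ 2) / D) := by
        rw [← mul_div_assoc, div_le_div_iff_of_pos_right hD, Finset.mul_sum]
        apply Finset.sum_le_sum
        intro y _
        have e2 : sj η D A P u (j + 1) y R = (∑ e ∈ Sr η D A P u (j + 2), P e y ^ 2 * R e) / D := rfl
        rw [e2]
        have hq : 0 ≤ P y x ^ 2 * pp ((∑ e ∈ Sr η D A P u (j + 2), P e y ^ 2 * R e) / D - g1) ^ 2 := by
          positivity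
        calc (fun y => P y x ^ 2) y * R y *
              pp ((∑ e ∈ Sr η D A P u (j + 2), P e y ^ 2 * R e) / D - g1) ^ 2
            = R y * (P y x ^ 2 *
              pp ((∑ e ∈ Sr η D A P u (j + 2), P e y ^ 2 * R e) / D - g1) ^ 2) := by ring
          _ ≤ M * (P y x ^ 2 *
              pp ((∑ e ∈ Sr η D A P u (j + 2), P e y ^ 2 * R e) / D - g1) ^ 2) :=
              mul_le_mul_of_nonneg_right (hRM y) hq
      have hq : 0 ≤ (∑ y ∈ Sr η D A P u (j + 1), P y x ^ 2 *
            pp (sj η D A P u (j + 1) y R - g1) ^ 2) / D := by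
        apply div_nonneg _ hD.le
        exact Finset.sum_nonneg fun y _ => mul_nonneg (sq_nonneg _) (sq_nonneg _)
      calc _ ≤ sj η D A P u j x R *
            (M * ((∑ y ∈ Sr η D A P u (j + 1), P y x ^ 2 *
            pp (sj η D A P u (j + 1) y R - g1) ^ 2) / D)) :=
            mul_le_mul_of_nonneg_left hb hs0
        _ ≤ M * (M * ((∑ y ∈ Sr η D A P u (j + 1), P y x ^ 2 *
            pp (sj η D A P u (j + 1) y R - g1) ^ 2) / D)) :=
            mul_le_mul_of_nonneg_right hs1 (mul_nonneg (by linarith) hq)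
        _ = _ := by ring
    have hmul := mul_le_mul_of_nonneg_left hcross hh
    nlinarith [hsq, hmul]
  -- sum
  have hsum : Ex D A P h R (lev η D A P j g') =
      (∑ u, ∑ x, wg η D A P u j x * Ex D A P h R (fun R' => pp (sj η D A P u j x R' - g') ^ 2))
        / (Fintype.card V * D) := by
    have : lev η D A P j g' = fun R' => (∑ u, ∑ x, wg η D A P u j x *
      pp (sj η D A P u j x R' - g') ^ 2) / (Fintype.card V * D) := rfl
    rw [this, Ex_div, Ex_fsum]
    congr 1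
    apply Finset.sum_congr rfl
    intro u _
    rw [Ex_fsum]
    apply Finset.sum_congr rfl
    intro x _
    rw [Ex_mul]
  have hnD : 0 < (Fintype.card V : ℝ) * D := mul_pos hn hD
  rw [hsum, div_le_iff₀ hnD]
  have hone : ∀ u, ∑ x, wg η D A P u j x * Ex D A P h R (fun R' => pp (sj η D A P u j x R' - g') ^ 2)
      ≤ (∑ x, wg η D A P u j x * pp (sj η D A P u j x R - g) ^ 2)
        + h * ((2 * G + 1) * (∑ x, wg η D A P u j x * pp (sj η D A P u j x R - g) ^ 2)
          + M ^ 2 * (∑ y, wg η D A P u (j + 1) y * pp (sj η D A P u (j + 1) y R - g1) ^ 2)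
          + ∑ x, wg η D A P u j x *
            ((∑ e, R e * Qf D A P (Sr η D A P u (j + 1)) (Sr η D A P u (j + 2))
              (fun y => P y x ^ 2) R e ^ 2) / D))
        + h ^ 2 * (3 * Z ^ 4 + L ^ 2) * (2 * D) := by
    intro u
    have hw := wg_succ hk η u j (fun y => pp (sj η D A P u (j + 1) y R - g1) ^ 2)
    rw [← hw]
    have hwsum := wg_sum hk η u j
    have hc0 : 0 ≤ h ^ 2 * (3 * Z ^ 4 + L ^ 2) := by positivity
    calc ∑ x, wg η D A P u j x * Ex D A P h R (fun R' => pp (sj η D A P u j x R' - g') ^ 2)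
        ≤ ∑ x, wg η D A P u j x * (pp (sj η D A P u j x R - g) ^ 2
          + h * ((2 * G + 1) * pp (sj η D A P u j x R - g) ^ 2
          + M ^ 2 * ((∑ y ∈ Sr η D A P u (j + 1), P y x ^ 2 *
            pp (sj η D A P u (j + 1) y R - g1) ^ 2) / D)
          + (∑ e, R e * Qf D A P (Sr η D A P u (j + 1)) (Sr η D A P u (j + 2))
            (fun y => P y x ^ 2) R e ^ 2) / D)
          + h ^ 2 * (3 * Z ^ 4 + L ^ 2)) := by
          apply Finset.sum_le_sum
          intro x _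
          exact mul_le_mul_of_nonneg_left (key u x) (wg_nonneg hk η u j x)
      _ = (∑ x, wg η D A P u j x * pp (sj η D A P u j x R - g) ^ 2)
        + h * ((2 * G + 1) * (∑ x, wg η D A P u j x * pp (sj η D A P u j x R - g) ^ 2)
          + M ^ 2 * (∑ x, wg η D A P u j x * ((∑ y ∈ Sr η D A P u (j + 1), P y x ^ 2 *
            pp (sj η D A P u (j + 1) y R - g1) ^ 2) / D))
          + ∑ x, wg η D A P u j x *
            ((∑ e, R e * Qf D A P (Sr η D A P u (j + 1)) (Sr η D A P u (j + 2))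
              (fun y => P y x ^ 2) R e ^ 2) / D))
        + h ^ 2 * (3 * Z ^ 4 + L ^ 2) * (∑ x, wg η D A P u j x) := by
          simp only [Finset.mul_sum, ← Finset.sum_add_distrib]
          apply Finset.sum_congr rfl
          intro x _
          ring
      _ ≤ _ := by
          have := mul_le_mul_of_nonneg_left hwsum hc0
          linarith
  refine (Finset.sum_le_sum fun u _ => hone u).trans (le_of_eq ?_)
  unfold lev Nz
  simp only [Finset.sum_add_distrib, ← Finset.mul_sum, Finset.sum_const, Finset.card_univ,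
    nsmul_eq_mul]
  field_simp

theorem lev_top {V : Type} [Fintype V] {D τ : ℝ} {A C P : V → V → ℝ} (hk : Ker D τ A C P)
    (η : ℝ) {M : ℝ} (hM : 0 ≤ M) {R : V → ℝ} (hR : ∀ y, 0 ≤ R y) (hRM : ∀ y, R y ≤ M)
    (N : ℕ) {g : ℝ} (hg : M ≤ g) : lev η D A P N g R = 0 := by
  unfold lev
  have : ∀ u x, wg η D A P u N x * pp (sj η D A P u N x R - g) ^ 2 = 0 := by
    intro u x
    have h1 := sj_le hk η u N x hM hR hRM
    have : pp (sj η D A P u N x R - g) = 0 := by
      unfold pp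
      exact max_eq_right (by linarith)
    rw [this]; ring
  simp [this]

/-- P5 -/
theorem Ph_step {V : Type} [Fintype V] {D τ : ℝ} {A C P : V → V → ℝ} (hk : Ker D τ A C P)
    (hV : 0 < Fintype.card V) (η : ℝ) {M : ℝ} (hM : 1 ≤ M)
    {h : ℝ} (hh : 0 ≤ h) {R : V → ℝ} (hR : ∀ y, 0 ≤ R y) (hRM : ∀ y, R y ≤ M)
    {Z : ℝ} (hZ : Z = (∑ y, R y) / D) (hZ1 : h * Z ≤ 1)
    (N : ℕ) {gs gs' : ℝ} {g g' : ℕ → ℝ} {G L ν : ℝ} (hG : 0 ≤ G) (hL : 0 ≤ L)
    (hg0 : ∀ j, 0 ≤ g j) (hgs0 : 0 ≤ gs) (hgN : M ≤ g N)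
    (hg : ∀ j, j < N → g j ≤ g' j ∧ g' j - g j ≤ L * h ∧
      (g j < M → h * (g j * g (j + 1)) ≤ g' j - g j ∧ g (j + 1) ≤ G))
    (hgs : gs ≤ gs' ∧ gs' - gs ≤ L * h ∧ h * (gs * g 0) ≤ gs' - gs ∧ g 0 ≤ G)
    (hν : ∀ j, j ≤ N → Nz η D A P R j ≤ ν) :
    Ex D A P h R (fun R' => Ph η D A P N gs' g' R') ≤
      Ph η D A P N gs g R
        + h * ((2 * G + 1 + 2 * M ^ 2) * Ph η D A P N gs g R + (N + 1) * ν)
        + h ^ 2 * ((2 * N + 1) * (3 * Z ^ 4 + L ^ 2)) := by
  have hM0 : (0:ℝ) ≤ M := by linarith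
  have e1 : (fun R' => Ph η D A P N gs' g' R') =
      fun R' => star D A P gs' R' + ∑ j ∈ range N, lev η D A P j (g' j) R' := rfl
  rw [e1, Ex_add, Ex_fsum, Ph_eq]
  have hs := star_step hk hV η hM hh hR hRM hZ hZ1 hG hL (hg0 0) hgs0 hgs
  have hl : ∑ j ∈ range N, Ex D A P h R (lev η D A P j (g' j)) ≤
      ∑ j ∈ range N, (lev η D A P j (g j) R
        + h * ((2 * G + 1) * lev η D A P j (g j) R + M ^ 2 * lev η D A P (j + 1) (g (j + 1)) R
          + ν) + h ^ 2 * (2 * (3 * Z ^ 4 + L ^ 2))) := by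
    apply Finset.sum_le_sum
    intro j hj
    have hj' : j < N := Finset.mem_range.mp hj
    refine (lev_step hk hV η hM hh hR hRM hZ hZ1 j hG hL (hg0 (j + 1)) (hg0 j) (hg j hj')).trans ?_
    have := mul_le_mul_of_nonneg_left (hν (j + 1) (by omega)) hh
    nlinarith
  have htop := lev_top hk η hM0 hR hRM N hgN
  have hshift : ∑ j ∈ range N, lev η D A P (j + 1) (g (j + 1)) R =
      ∑ j ∈ range N, lev η D A P j (g j) R - lev η D A P 0 (g 0) R := by
    have h1 := Finset.sum_range_succ (fun j => lev η D A P j (g j) R) N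
    have h2 := Finset.sum_range_succ' (fun j => lev η D A P j (g j) R) N
    rw [htop] at h1
    linarith
  have h0 : lev η D A P 0 (g 0) R ≤ ∑ j ∈ range N, lev η D A P j (g j) R := by
    rcases Nat.eq_zero_or_pos N with h | h
    · subst h
      simp [htop]
    · exact Finset.single_le_sum (f := fun j => lev η D A P j (g j) R)
        (fun j _ => lev_nonneg hk η j (g j) R) (Finset.mem_range.mpr h)
  have hl0 := lev_nonneg hk η 0 (g 0) R
  have hst : 0 ≤ star D A P gs R := by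
    unfold star
    exact div_nonneg (Finset.sum_nonneg fun u _ => sq_nonneg _) (by positivity)
  have hν0 := mul_le_mul_of_nonneg_left (hν 0 (by omega)) hh
  simp only [Finset.sum_add_distrib, ← Finset.mul_sum, Finset.sum_const, Finset.card_range,
    nsmul_eq_mul] at hl
  rw [hshift] at hl
  set X := ∑ j ∈ range N, lev η D A P j (g j) R with hX
  set l0 := lev η D A P 0 (g 0) R with hl0'
  set st := star D A P gs R with hst'
  have hM2 : 0 ≤ M ^ 2 := by positivity
  have k1 : 0 ≤ h * (M ^ 2 * (X - l0)) := mul_nonneg hh (mul_nonneg hM2 (by linarith))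
  have k2 : 0 ≤ h * (M ^ 2 * st) := mul_nonneg hh (mul_nonneg hM2 hst)
  nlinarith [hs, hl, hν0, k1, k2]

end Pool.Agent.H48.Vu
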