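import Pool.Agent.H48.Vu.P5

/-! The total potential: discarding and one step. -/

set_option autoImplicit false
set_option linter.unusedVariables false

namespace Pool.Agent.H48.Vu

open Finset Pool.Agent.Helper85.Vu
open scoped Classical

theorem pp_mono {x y : ℝ} (h : x ≤ y) : pp x ≤ pp y := max_le_max_right 0 h

theorem pp_nonneg (x : ℝ) : 0 ≤ pp x := le_max_right _ _

theorem Ph_mono {V : Type} [Fintype V] {D τ : ℝ} {A C P : V → V → ℝ} (hk : Ker D τ A C P)
    (η : ℝ) (N : ℕ) (gs : ℝ) (g : ℕ → ℝ) {R R' : V → ℝ} (hR : ∀ y, R' y ≤ R y) :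
    Ph η D A P N gs g R' ≤ Ph η D A P N gs g R := by
  have hD : 0 < D := by linarith [hk.one_le]
  unfold Ph
  apply add_le_add
  · apply div_le_div_of_nonneg_right _ (by positivity)
    apply Finset.sum_le_sum
    intro u _
    apply pow_le_pow_left₀ (pp_nonneg _)
    apply pp_mono
    have : nu D A P u R' ≤ nu D A P u R := by
      unfold nu
      apply div_le_div_of_nonneg_right _ hD.le
      apply Finset.sum_le_sum
      intro y _
      exact mul_le_mul_of_nonneg_left (hR y) (sq_nonneg _)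
    linarith
  · apply Finset.sum_le_sum
    intro j _
    apply div_le_div_of_nonneg_right _ (by positivity)
    apply Finset.sum_le_sum
    intro u _
    apply Finset.sum_le_sum
    intro x _
    apply mul_le_mul_of_nonneg_left _ (wg_nonneg hk η u j x)
    apply pow_le_pow_left₀ (pp_nonneg _)
    apply pp_mono
    have : sj η D A P u j x R' ≤ sj η D A P u j x R := by
      unfold sj
      apply div_le_div_of_nonneg_right _ hD.le
      apply Finset.sum_le_sum
      intro y _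
      exact mul_le_mul_of_nonneg_left (hR y) (sq_nonneg _)
    linarith

/-- P6, discarding -/
theorem Fp_disc {V : Type} [Fintype V] {D τ : ℝ} {A C P : V → V → ℝ} (hk : Ker D τ A C P)
    (η : ℝ) {M : ℝ} (hM : 0 ≤ M) {R : V → ℝ} (hR : ∀ y, 0 ≤ R y)
    (N : ℕ) {r a b : ℝ} (gs : ℝ) (g : ℕ → ℝ) (hr : 0 ≤ r) (ha : 0 ≤ a) (hb : 0 ≤ b)
    (hrM : r ≤ a * M) :
    Fp η D A P N r a b gs g R ≤ Fp η D A P N r a b gs g (disc M R) := by
  have hle : ∀ y, disc M R y ≤ R y := by
    intro y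
    unfold disc
    split_ifs
    · exact le_rfl
    · exact hR y
  have hPh := Ph_mono hk η N gs g hle
  have h1 : r * ((∑ y, R y) / Fintype.card V) - a * ((∑ y, R y ^ 2) / Fintype.card V) ≤
      r * ((∑ y, disc M R y) / Fintype.card V) - a * ((∑ y, disc M R y ^ 2) / Fintype.card V) := by
    have e : ∀ Q : V → ℝ, r * ((∑ y, Q y) / Fintype.card V) - a * ((∑ y, Q y ^ 2) / Fintype.card V)
        = (∑ y, (r * Q y - a * Q y ^ 2)) / Fintype.card V := by
      intro Q
      rw [Finset.sum_sub_distrib, ← Finset.mul_sum, ← Finset.mul_sum]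
      ring
    rw [e R, e (disc M R)]
    apply div_le_div_of_nonneg_right _ (by positivity)
    apply Finset.sum_le_sum
    intro y _
    unfold disc
    split_ifs with h
    · exact le_rfl
    · have h2 : M ≤ R y := by linarith
      have h3 : r ≤ a * R y := hrM.trans (mul_le_mul_of_nonneg_left h2 ha)
      have h4 := mul_le_mul_of_nonneg_right h3 (hR y)
      nlinarith
  have h2 := mul_le_mul_of_nonneg_left hPh hb
  unfold Fp
  linarith

/-- P6, one step -/
theorem Fp_step {V : Type} [Fintype V] {D τ : ℝ} {A C P : V → V → ℝ} (hk : Ker D τ A C P)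
    (hV : 0 < Fintype.card V) (η : ℝ) {M : ℝ} (hM : 1 ≤ M)
    {h : ℝ} (hh : 0 ≤ h) {R : V → ℝ} (hR : ∀ y, 0 ≤ R y) (hRM : ∀ y, R y ≤ M)
    {Z : ℝ} (hZ : Z = (∑ y, R y) / D) (hZ1 : h * Z ≤ 1)
    (N : ℕ) {gs gs' : ℝ} {g g' : ℕ → ℝ} {G L ν : ℝ} (hG : 0 ≤ G) (hL : 0 ≤ L)
    (hg0 : ∀ j, 0 ≤ g j) (hgs0 : 0 ≤ gs) (hgN : M ≤ g N)
    (hg : ∀ j, j < N → g j ≤ g' j ∧ g' j - g j ≤ L * h ∧
      (g j < M → h * (g j * g (j + 1)) ≤ g' j - g j ∧ g (j + 1) ≤ G))
    (hgs : gs ≤ gs' ∧ gs' - gs ≤ L * h ∧ h * (gs * g 0) ≤ gs' - gs ∧ g 0 ≤ G)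
    (hν : ∀ j, j ≤ N → Nz η D A P R j ≤ ν)
    {r a a' b b' ε5 : ℝ} (hr : 0 ≤ r) (ha' : 0 ≤ a') (hb' : 0 ≤ b') (hε5 : 0 < ε5)
    (ha : a' * (1 + h * gs) ≤ a)
    (hb : b' * (1 + h * (2 * G + 1 + 2 * M ^ 2)) + h * (a' * M ^ 2 / (4 * ε5)) ≤ b) :
    Fp η D A P N (r + h) a b gs g R - h * (a' * M ^ 2 * ε5 + b' * ((N + 1) * ν))
        - h ^ 2 * (r * Z ^ 2 * M + 3 * a' * Z ^ 2 * M ^ 2
          + b' * ((2 * N + 1) * (3 * Z ^ 4 + L ^ 2))) ≤
      ∑ e, h * (R e / D) * (D / Fintype.card V + Fp η D A P N r a' b' gs' g' (pk A P R e))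
        + (1 - h * ((∑ e, R e) / D)) * Fp η D A P N r a' b' gs' g' (wt D A P h R) := by
  have hD : 0 < D := by linarith [hk.one_le]
  have hn : (0 : ℝ) < Fintype.card V := by exact_mod_cast hV
  have hM0 : (0:ℝ) ≤ M := by linarith
  have hZ0 : 0 ≤ Z := by
    rw [hZ]; exact div_nonneg (Finset.sum_nonneg fun y _ => hR y) hD.le
  -- rewrite the right-hand side
  have hrhs : ∑ e, h * (R e / D) * (D / Fintype.card V + Fp η D A P N r a' b' gs' g' (pk A P R e))
        + (1 - h * ((∑ e, R e) / D)) * Fp η D A P N r a' b' gs' g' (wt D A P h R) =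
      h * ((∑ y, R y) / Fintype.card V)
        + (r * (Ex D A P h R (fun R' => ∑ y, R' y) / Fintype.card V)
          - a' * (Ex D A P h R (fun R' => ∑ y, R' y ^ 2) / Fintype.card V)
          - b' * Ex D A P h R (fun R' => Ph η D A P N gs' g' R')) := by
    have e1 : Ex D A P h R (fun R' => Fp η D A P N r a' b' gs' g' R') =
        r * (Ex D A P h R (fun R' => ∑ y, R' y) / Fintype.card V)
          - a' * (Ex D A P h R (fun R' => ∑ y, R' y ^ 2) / Fintype.card V)
          - b' * Ex D A P h R (fun R' => Ph η D A P N gs' g' R') := by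
      have e2 : (fun R' => Fp η D A P N r a' b' gs' g' R') =
          fun R' => (r / Fintype.card V * (∑ y, R' y) + (-a' / Fintype.card V) * (∑ y, R' y ^ 2))
            + (-b') * Ph η D A P N gs' g' R' := by
        funext R'
        unfold Fp
        ring
      rw [e2, Ex_add, Ex_add, Ex_mul, Ex_mul, Ex_mul]
      ring
    rw [← e1]
    unfold Ex
    simp only [mul_add, Finset.sum_add_distrib]
    have e3 : ∑ e, h * (R e / D) * (D / (Fintype.card V : ℝ)) =
        h * ((∑ y, R y) / Fintype.card V) := by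
      rw [Finset.sum_div, Finset.mul_sum]
      apply Finset.sum_congr rfl
      intro e _
      field_simp
    rw [e3]
    ring
  rw [hrhs]
  -- the three pieces
  have q1 := Ex_sum hk hh hR hZ hZ1
  have q2 := Ex_sq hk hh hR hZ hZ1
  have q3 := Ph_step hk hV η hM hh hR hRM hZ hZ1 N hG hL hg0 hgs0 hgN hg hgs hν
  set S1 := ∑ y, R y with hS1
  set S2 := ∑ y, R y ^ 2 with hS2
  set n : ℝ := (Fintype.card V : ℝ) with hn'
  have hS1n : S1 / n ≤ M := by
    rw [div_le_iff₀ hn, hS1, mul_comm]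
    calc ∑ y, R y ≤ ∑ _y : V, M := Finset.sum_le_sum fun y _ => hRM y
      _ = n * M := by rw [Finset.sum_const, Finset.card_univ, nsmul_eq_mul]
  have hS1n0 : 0 ≤ S1 / n := div_nonneg (Finset.sum_nonneg fun y _ => hR y) hn.le
  have hRsq : ∀ y, R y ^ 2 ≤ M ^ 2 := fun y => pow_le_pow_left₀ (hR y) (hRM y) 2
  have hS2n : S2 / n ≤ M ^ 2 := by
    rw [div_le_iff₀ hn, hS2, mul_comm]
    calc ∑ y, R y ^ 2 ≤ ∑ _y : V, M ^ 2 := Finset.sum_le_sum fun y _ => hRsq y
      _ = n * M ^ 2 := by rw [Finset.sum_const, Finset.card_univ, nsmul_eq_mul]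
  have hS2n0 : 0 ≤ S2 / n := div_nonneg (Finset.sum_nonneg fun y _ => sq_nonneg _) hn.le
  have hstar0 : 0 ≤ star D A P gs R := by
    unfold star
    exact div_nonneg (Finset.sum_nonneg fun u _ => sq_nonneg _) (by positivity)
  have hPhs : star D A P gs R ≤ Ph η D A P N gs g R := by
    rw [Ph_eq]
    have : 0 ≤ ∑ j ∈ range N, lev η D A P j (g j) R :=
      Finset.sum_nonneg fun j _ => lev_nonneg hk η j (g j) R
    linarith
  have hPh0 : 0 ≤ Ph η D A P N gs g R := hstar0.trans hPhs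
  -- piece 1
  have p1 : (r + h) * (S1 / n) - h ^ 2 * (r * Z ^ 2 * M) ≤
      h * (S1 / n) + r * (Ex D A P h R (fun R' => ∑ y, R' y) / n) := by
    have h1 : (S1 - h ^ 2 * Z ^ 2 * S1) / n ≤ Ex D A P h R (fun R' => ∑ y, R' y) / n :=
      div_le_div_of_nonneg_right q1 hn.le
    have h2 : (S1 - h ^ 2 * Z ^ 2 * S1) / n = S1 / n - h ^ 2 * Z ^ 2 * (S1 / n) := by ring
    rw [h2] at h1
    have h3 := mul_le_mul_of_nonneg_left h1 hr
    have h4 : r * (h ^ 2 * Z ^ 2 * (S1 / n)) ≤ r * (h ^ 2 * Z ^ 2 * M) :=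
      mul_le_mul_of_nonneg_left (mul_le_mul_of_nonneg_left hS1n (by positivity)) hr
    nlinarith
  -- piece 2
  have hnusum : (∑ y, R y ^ 2 * nu D A P y R) / n ≤
      gs * (S2 / n) + M ^ 2 * ε5 + M ^ 2 / (4 * ε5) * star D A P gs R := by
    have hpt : ∀ y, R y ^ 2 * nu D A P y R ≤ gs * R y ^ 2 + M ^ 2 * ε5
        + M ^ 2 / (4 * ε5) * pp (nu D A P y R - gs) ^ 2 := by
      intro y
      set p := pp (nu D A P y R - gs) with hp
      have hp0 : 0 ≤ p := pp_nonneg _
      have hp1 : nu D A P y R - gs ≤ p := le_max_left _ _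
      have hp2 : p ≤ ε5 + p ^ 2 / (4 * ε5) := by
        have h4 : 0 < 4 * ε5 := by linarith
        have : 0 ≤ (p - 2 * ε5) ^ 2 := sq_nonneg _
        rw [← sub_nonneg]
        have e : ε5 + p ^ 2 / (4 * ε5) - p = (p - 2 * ε5) ^ 2 / (4 * ε5) := by
          field_simp; ring
        rw [e]; positivity
      have hR2 : 0 ≤ R y ^ 2 := sq_nonneg _
      calc R y ^ 2 * nu D A P y R ≤ R y ^ 2 * (gs + p) :=
            mul_le_mul_of_nonneg_left (by linarith) hR2
        _ = gs * R y ^ 2 + R y ^ 2 * p := by ring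
        _ ≤ gs * R y ^ 2 + M ^ 2 * p := by
            have := mul_le_mul_of_nonneg_right (hRsq y) hp0
            linarith
        _ ≤ gs * R y ^ 2 + M ^ 2 * (ε5 + p ^ 2 / (4 * ε5)) := by
            have := mul_le_mul_of_nonneg_left hp2 (by positivity : 0 ≤ M ^ 2)
            linarith
        _ = _ := by ring
    rw [div_le_iff₀ hn]
    refine (Finset.sum_le_sum fun y _ => hpt y).trans (le_of_eq ?_)
    unfold star
    simp only [Finset.sum_add_distrib, ← Finset.mul_sum, Finset.sum_const, Finset.card_univ,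
      nsmul_eq_mul]
    rw [← hn', ← hS2]
    field_simp
  have p2 : a' * (Ex D A P h R (fun R' => ∑ y, R' y ^ 2) / n) ≤
      a * (S2 / n) + h * (a' * M ^ 2 * ε5) + h * (a' * M ^ 2 / (4 * ε5)) * Ph η D A P N gs g R
        + h ^ 2 * (3 * a' * Z ^ 2 * M ^ 2) := by
    have h1 : Ex D A P h R (fun R' => ∑ y, R' y ^ 2) / n ≤
        (∑ y, R y ^ 2 * (1 + h * nu D A P y R + 3 * h ^ 2 * Z ^ 2)) / n :=
      div_le_div_of_nonneg_right q2 hn.le
    have h2 : (∑ y, R y ^ 2 * (1 + h * nu D A P y R + 3 * h ^ 2 * Z ^ 2)) / n =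
        (1 + 3 * h ^ 2 * Z ^ 2) * (S2 / n) + h * ((∑ y, R y ^ 2 * nu D A P y R) / n) := by
      rw [hS2, ← mul_div_assoc, ← mul_div_assoc, ← add_div, Finset.mul_sum, Finset.mul_sum,
        ← Finset.sum_add_distrib]
      congr 1
      apply Finset.sum_congr rfl
      intro y _
      ring
    rw [h2] at h1
    have h3 := mul_le_mul_of_nonneg_left hnusum hh
    have h4 : Ex D A P h R (fun R' => ∑ y, R' y ^ 2) / n ≤
        (1 + h * gs) * (S2 / n) + h * (M ^ 2 * ε5) + h * (M ^ 2 / (4 * ε5)) * Ph η D A P N gs g R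
          + h ^ 2 * (3 * Z ^ 2 * M ^ 2) := by
      have h5 : h * (M ^ 2 / (4 * ε5)) * star D A P gs R ≤
          h * (M ^ 2 / (4 * ε5)) * Ph η D A P N gs g R :=
        mul_le_mul_of_nonneg_left hPhs (by positivity)
      have h6 : 3 * h ^ 2 * Z ^ 2 * (S2 / n) ≤ 3 * h ^ 2 * Z ^ 2 * M ^ 2 :=
        mul_le_mul_of_nonneg_left hS2n (by positivity)
      nlinarith
    have h7 := mul_le_mul_of_nonneg_left h4 ha'
    have h8 := mul_le_mul_of_nonneg_right ha hS2n0
    calc _ ≤ _ := h7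
      _ = a' * (1 + h * gs) * (S2 / n) + h * (a' * M ^ 2 * ε5)
          + h * (a' * M ^ 2 / (4 * ε5)) * Ph η D A P N gs g R
          + h ^ 2 * (3 * a' * Z ^ 2 * M ^ 2) := by ring
      _ ≤ _ := by linarith
  -- piece 3
  have p3 : b' * Ex D A P h R (fun R' => Ph η D A P N gs' g' R')
      + h * (a' * M ^ 2 / (4 * ε5)) * Ph η D A P N gs g R ≤
      b * Ph η D A P N gs g R + h * (b' * ((N + 1) * ν))
        + h ^ 2 * (b' * ((2 * N + 1) * (3 * Z ^ 4 + L ^ 2))) := by
    have h1 := mul_le_mul_of_nonneg_left q3 hb'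
    have h2 := mul_le_mul_of_nonneg_right hb hPh0
    nlinarith
  unfold Fp
  rw [← hn', ← hS1, ← hS2]
  linarith

end Pool.Agent.H48.Vu
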