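import Pool.Agent.H48.Vu.P1

/-! Iteration of the one-step inequality: an independent set from the process. -/

set_option autoImplicit false
set_option linter.unusedVariables false

namespace Pool.Agent.H48.Vu

open Finset Pool.Agent.Helper85.Vu
open scoped Classical

private theorem exists_outcome {V : Type} [Fintype V] {w v : V → ℝ} {w0 v0 X : ℝ}
    (hw : ∀ e, 0 ≤ w e) (hw0 : 0 ≤ w0) (hsum : ∑ e, w e + w0 = 1)
    (h : X ≤ ∑ e, w e * v e + w0 * v0) : X ≤ v0 ∨ ∃ e, 0 < w e ∧ X ≤ v e := by
  by_contra hcon
  push Not at hcon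
  obtain ⟨h0, h1⟩ := hcon
  have hle : ∀ e ∈ (univ : Finset V), w e * v e ≤ w e * X := by
    intro e _
    rcases (hw e).eq_or_lt with h2 | h2
    · rw [← h2]; simp
    · exact mul_le_mul_of_nonneg_left (h1 e h2).le (hw e)
  have hX : ∑ e, w e * X + w0 * X = X := by
    rw [← sum_mul, ← add_mul, hsum, one_mul]
  have hle2 : w0 * v0 ≤ w0 * X := mul_le_mul_of_nonneg_left h0.le hw0
  rcases hw0.eq_or_lt with h2 | h2
  · rw [← h2, add_zero] at hsum
    have hpos : ∃ e ∈ (univ : Finset V), 0 < w e := by
      by_contra hcon
      push Not at hcon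
      have : ∑ e, w e ≤ 0 := sum_nonpos hcon
      linarith
    obtain ⟨e, he, hwe⟩ := hpos
    have : ∑ e, w e * v e < ∑ e, w e * X :=
      sum_lt_sum hle ⟨e, he, mul_lt_mul_of_pos_left (h1 e hwe) hwe⟩
    linarith
  · have h3 : w0 * v0 < w0 * X := mul_lt_mul_of_pos_left h0 h2
    have := sum_le_sum hle
    linarith

private theorem disc_le {V : Type} {M : ℝ} (hM : 0 ≤ M) (R : V → ℝ) (y : V) :
    disc M R y ≤ M := by
  unfold disc
  split_ifs with h
  · exact h
  · exact hM

private theorem disc_nonneg {V : Type} {M : ℝ} {R : V → ℝ} (hR : ∀ y, 0 ≤ R y) (y : V) :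
    0 ≤ disc M R y := by
  unfold disc
  split_ifs with h
  · exact hR y
  · exact le_rfl

private theorem disc_pos {V : Type} {M : ℝ} {R : V → ℝ} {y : V} (h : 0 < disc M R y) :
    0 < R y := by
  unfold disc at h
  split_ifs at h with h1
  · exact h
  · exact absurd h (lt_irrefl _)

/-- P7 -/
theorem iter {V : Type} [Fintype V] {D τ : ℝ} {A C P : V → V → ℝ} (hk : Ker D τ A C P)
    {M : ℝ} (hM : 0 ≤ M) {h err : ℝ} (hh : 0 ≤ h) (hhM : h * (Fintype.card V * M / D) ≤ 1)
    (m : ℕ) (F : ℕ → (V → ℝ) → ℝ)
    (hstep : ∀ i, i < m → ∀ R : V → ℝ, (∀ y, 0 ≤ R y) → (∀ y, R y ≤ M) →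
      F i R - err ≤
        ∑ e, h * (R e / D) * (D / Fintype.card V + F (i + 1) (disc M (pk A P R e)))
          + (1 - h * ((∑ e, R e) / D)) * F (i + 1) (disc M (wt D A P h R)))
    (hend : ∀ R : V → ℝ, (∀ y, 0 ≤ R y) → (∀ y, R y ≤ M) → F m R ≤ 0)
    (R : V → ℝ) (hR : ∀ y, 0 ≤ R y) (hRM : ∀ y, R y ≤ M) :
    ∃ I : Finset V, (∀ x ∈ I, 0 < R x) ∧ (∀ x ∈ I, ∀ y ∈ I, x ≠ y → A x y = 0) ∧
      F 0 R - m * err ≤ I.card * (D / Fintype.card V) := by
  have hD : 0 < D := lt_of_lt_of_le one_pos hk.one_le
  have hsumR : ∀ R : V → ℝ, (∀ y, R y ≤ M) → ∑ y, R y ≤ Fintype.card V * M := by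
    intro R hRM
    calc ∑ y, R y ≤ ∑ y : V, M := sum_le_sum fun y _ => hRM y
      _ = Fintype.card V * M := by rw [sum_const, card_univ, nsmul_eq_mul]
  have hZ : ∀ R : V → ℝ, (∀ y, R y ≤ M) → h * ((∑ e, R e) / D) ≤ 1 := by
    intro R hRM
    refine le_trans ?_ hhM
    exact mul_le_mul_of_nonneg_left (div_le_div_of_nonneg_right (hsumR R hRM) hD.le) hh
  have hdd1 : ∀ x y, A x y = 1 → dd A P x y = 1 := by
    intro x y hxy
    unfold dd
    rw [hxy]; ring
  have main : ∀ l i : ℕ, i + l = m → ∀ R : V → ℝ, (∀ y, 0 ≤ R y) → (∀ y, R y ≤ M) →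
      ∃ I : Finset V, (∀ x ∈ I, 0 < R x) ∧ (∀ x ∈ I, ∀ y ∈ I, x ≠ y → A x y = 0) ∧
        F i R - l * err ≤ I.card * (D / Fintype.card V) := by
    intro l
    induction l with
    | zero =>
      intro i hi R hR hRM
      have him : i = m := by omega
      subst him
      refine ⟨∅, by simp, by simp, ?_⟩
      simpa using hend R hR hRM
    | succ l ih =>
      intro i hi R hR hRM
      have hs := hstep i (by omega) R hR hRM
      have hsum : ∑ e, h * (R e / D) + (1 - h * ((∑ e, R e) / D)) = 1 := by
        rw [← mul_sum, ← sum_div]; ring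
      rcases exists_outcome (fun e => mul_nonneg hh (div_nonneg (hR e) hD.le))
        (by linarith [hZ R hRM]) hsum hs with hw | ⟨e, hwe, hv⟩
      · -- waiting
        have hwt : ∀ y, 0 ≤ wt D A P h R y := by
          intro y
          unfold wt
          apply mul_nonneg (hR y)
          have h1 : -((∑ e, R e) / D) ≤ rt D A P R y := by
            unfold rt
            rw [← neg_div]
            apply div_le_div_of_nonneg_right _ hD.le
            rw [← sum_neg_distrib]
            refine sum_le_sum fun e _ => ?_
            have h2 := (abs_le.1 (dd_abs_le hk y e)).1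
            nlinarith [hR e]
          have h2 := mul_le_mul_of_nonneg_left h1 hh
          have h3 := hZ R hRM
          linarith
        obtain ⟨I, hI1, hI2, hI3⟩ := ih (i + 1) (by omega) (disc M (wt D A P h R))
          (disc_nonneg hwt) (disc_le hM _)
        refine ⟨I, fun x hx => ?_, hI2, ?_⟩
        · have h1 := disc_pos (hI1 x hx)
          unfold wt at h1
          rcases (hR x).eq_or_lt with h2 | h2
          · rw [← h2, zero_mul] at h1
            exact absurd h1 (lt_irrefl _)
          · exact h2
        · push_cast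
          linarith
      · -- selection of e
        have hRe : 0 < R e := by
          rcases (hR e).eq_or_lt with h2 | h2
          · rw [← h2] at hwe; simp at hwe
          · exact h2
        have hpk : ∀ y, 0 ≤ pk A P R e y := by
          intro y
          unfold pk
          apply mul_nonneg (hR y)
          have := (abs_le.1 (dd_abs_le hk y e)).2
          linarith
        obtain ⟨I, hI1, hI2, hI3⟩ := ih (i + 1) (by omega) (disc M (pk A P R e))
          (disc_nonneg hpk) (disc_le hM _)
        have hIA : ∀ x ∈ I, A x e = 0 ∧ 0 < R x := by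
          intro x hx
          have h1 := disc_pos (hI1 x hx)
          unfold pk at h1
          constructor
          · rcases hk.zo x e with h2 | h2
            · exact h2
            · rw [hdd1 x e h2] at h1
              simp at h1
          · rcases (hR x).eq_or_lt with h2 | h2
            · rw [← h2, zero_mul] at h1
              exact absurd h1 (lt_irrefl _)
            · exact h2
        have heI : e ∉ I := by
          intro he
          have := (hIA e he).1
          rw [hk.refl e] at this
          exact one_ne_zero this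
        refine ⟨insert e I, ?_, ?_, ?_⟩
        · intro x hx
          rcases mem_insert.1 hx with rfl | hx
          · exact hRe
          · exact (hIA x hx).2
        · intro x hx y hy hxy
          rcases mem_insert.1 hx with hx1 | hx1
          · rcases mem_insert.1 hy with hy1 | hy1
            · exact absurd (hx1.trans hy1.symm) hxy
            · rw [hx1, hk.symm]; exact (hIA y hy1).1
          · rcases mem_insert.1 hy with hy1 | hy1
            · rw [hy1]; exact (hIA x hx1).1
            · exact hI2 x hx1 y hy1 hxy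
        · rw [card_insert_of_notMem heI]
          push_cast
          linarith
  simpa using main m 0 (by omega) R hR hRM

end Pool.Agent.H48.Vu
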