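import Pool.Agent.H48.Vu.P1
import Pool.Agent.H48.Vu.P3

/-! Average noise and initial value of the excess potential. -/

set_option autoImplicit false
set_option linter.unusedVariables false

namespace Pool.Agent.H48.Vu

open Finset Pool.Agent.Helper85.Vu
open scoped Classical

/-- number of bad centres -/
private theorem bad_card {V : Type} [Fintype V] {D ε κ γ : ℝ} {E : V → V → ℝ}
    (hD : 0 < D) (hε : 0 < ε) (hκ0 : 0 ≤ κ) (St : V → Finset V)
    (hcard' : ∀ x, ((univ.filter (fun u => x ∈ St u)).card : ℝ) ≤ κ * D)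
    (hE : ∀ x y, 0 ≤ E x y) (hEs : ∑ x, ∑ y, E x y ≤ γ * (Fintype.card V) * D) :
    (((univ : Finset V).filter
      (fun u => ¬ ∑ x ∈ St u, ∑ y ∈ St u, E x y ≤ (ε / 16) ^ 2 * D ^ 2)).card : ℝ) ≤
      Fintype.card V * (κ * γ / (ε / 16) ^ 2) := by
  set Bd := (univ : Finset V).filter
      (fun u => ¬ ∑ x ∈ St u, ∑ y ∈ St u, E x y ≤ (ε / 16) ^ 2 * D ^ 2) with hBd
  have hε' : 0 < (ε / 16) ^ 2 := by positivity
  have h1 : (Bd.card : ℝ) * ((ε / 16) ^ 2 * D ^ 2) ≤ ∑ u, ∑ x ∈ St u, ∑ y ∈ St u, E x y := by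
    calc (Bd.card : ℝ) * ((ε / 16) ^ 2 * D ^ 2) = ∑ u ∈ Bd, ((ε / 16) ^ 2 * D ^ 2) := by
          rw [sum_const, nsmul_eq_mul]
      _ ≤ ∑ u ∈ Bd, ∑ x ∈ St u, ∑ y ∈ St u, E x y := by
          refine sum_le_sum fun u hu => ?_
          rw [hBd, mem_filter] at hu
          exact (not_le.1 hu.2).le
      _ ≤ ∑ u, ∑ x ∈ St u, ∑ y ∈ St u, E x y :=
          sum_le_sum_of_subset_of_nonneg (subset_univ _)
            (fun u _ _ => sum_nonneg fun x _ => sum_nonneg fun y _ => hE x y)
  have h2 : ∑ u, ∑ x ∈ St u, ∑ y ∈ St u, E x y ≤ κ * D * (γ * (Fintype.card V) * D) := by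
    calc ∑ u, ∑ x ∈ St u, ∑ y ∈ St u, E x y ≤ ∑ u, ∑ x ∈ St u, ∑ y, E x y := by
          refine sum_le_sum fun u _ => sum_le_sum fun x _ => ?_
          exact sum_le_sum_of_subset_of_nonneg (subset_univ _) (fun y _ _ => hE x y)
      _ = ∑ u, ∑ x, if x ∈ St u then ∑ y, E x y else 0 := by
          refine sum_congr rfl fun u _ => ?_
          rw [← sum_filter, filter_mem_eq_inter, univ_inter]
      _ = ∑ x, ∑ u, if x ∈ St u then ∑ y, E x y else 0 := sum_comm
      _ = ∑ x, ((univ.filter (fun u => x ∈ St u)).card : ℝ) * ∑ y, E x y := by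
          refine sum_congr rfl fun x _ => ?_
          rw [← sum_filter, sum_const, nsmul_eq_mul]
      _ ≤ ∑ x, κ * D * ∑ y, E x y := by
          refine sum_le_sum fun x _ => ?_
          exact mul_le_mul_of_nonneg_right (hcard' x) (sum_nonneg fun y _ => hE x y)
      _ = κ * D * ∑ x, ∑ y, E x y := by rw [mul_sum]
      _ ≤ κ * D * (γ * (Fintype.card V) * D) :=
          mul_le_mul_of_nonneg_left hEs (mul_nonneg hκ0 hD.le)
  have h3 : (Bd.card : ℝ) * (ε / 16) ^ 2 * D ^ 2 ≤ (Fintype.card V * (κ * γ)) * D ^ 2 := by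
    nlinarith [h1, h2]
  have h4 : (Bd.card : ℝ) * (ε / 16) ^ 2 ≤ Fintype.card V * (κ * γ) :=
    le_of_mul_le_mul_right h3 (by positivity)
  rw [← mul_div_assoc, le_div_iff₀ hε']
  exact h4

/-- averaging a bound over good and bad centres -/
private theorem avg_good_bad {V : Type} [Fintype V] {D Bg Bb q : ℝ} (hV : 0 < Fintype.card V)
    (hBg : 0 ≤ Bg) (hBb : 0 ≤ Bb) (good : V → Prop) {T : V → ℝ}
    (hg : ∀ u, good u → T u ≤ Bg) (hb : ∀ u, T u ≤ Bb)
    (hc : (((univ : Finset V).filter (fun u => ¬ good u)).card : ℝ) ≤ Fintype.card V * q) :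
    (∑ u, T u) / Fintype.card V ≤ Bg + q * Bb := by
  have hn : (0 : ℝ) < Fintype.card V := by exact_mod_cast hV
  rw [div_le_iff₀ hn]
  calc ∑ u, T u ≤ ∑ u, (Bg + if ¬ good u then Bb else 0) := by
        refine sum_le_sum fun u _ => ?_
        by_cases h : good u
        · rw [if_neg (not_not.2 h)]; linarith [hg u h]
        · rw [if_pos h]; linarith [hb u]
    _ = Fintype.card V * Bg + (((univ : Finset V).filter (fun u => ¬ good u)).card : ℝ) * Bb := by
        rw [sum_add_distrib, ← sum_filter, sum_const, sum_const, nsmul_eq_mul, nsmul_eq_mul,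
          card_univ]
    _ ≤ Fintype.card V * Bg + Fintype.card V * q * Bb := by
        have := mul_le_mul_of_nonneg_right hc hBb
        linarith
    _ = (Bg + q * Bb) * Fintype.card V := by ring

/-- P8a -/
theorem Nz_le {V : Type} [Fintype V] {D τ η M ε κ γ : ℝ} {A C P E : V → V → ℝ}
    (hk : Ker D τ A C P) (hV : 0 < Fintype.card V) (hM : 1 ≤ M) (hη : 0 < η) (hε : 0 < ε)
    (hκ0 : 0 ≤ κ) (hγ : 0 ≤ γ) (N : ℕ)
    (hcard : ∀ u, ((Sr η D A P u (N + 1)).card : ℝ) ≤ κ * D)
    (hcard' : ∀ x, ((univ.filter (fun u => x ∈ Sr η D A P u (N + 1))).card : ℝ) ≤ κ * D)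
    (hE : ∀ x y, 0 ≤ E x y) (hEs : ∑ x, ∑ y, E x y ≤ γ * (Fintype.card V) * D)
    (hn : ∀ S : Finset V, (S.card : ℝ) ≤ κ * D →
          ∑ x ∈ S, ∑ y ∈ S, E x y ≤ (ε / 16) ^ 2 * D ^ 2 → NoiseOK ε D A C P S)
    {R : V → ℝ} (hR : ∀ y, 0 ≤ R y) (hRM : ∀ y, R y ≤ M) (j : ℕ) (hj : j ≤ N) :
    Nz η D A P R j ≤
      2 * (4 * M ^ 3 * ε ^ 2 + 32 * M ^ 3 * τ + 16 * M ^ 3 * τ * ε * Real.sqrt κ
        + 2 * M ^ 3 * η * (1 + 1 / τ ^ 2))
      + 2 * (κ * γ / (ε / 16) ^ 2) * (8 * M ^ 3 * (2 + 1 / τ ^ 2)) := by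
  have hD : 0 < D := lt_of_lt_of_le one_pos hk.one_le
  have hτ : 0 < τ := hk.tau_pos
  have hM0 : 0 < M := by linarith
  have hnV : (0 : ℝ) < Fintype.card V := by exact_mod_cast hV
  set Bg : ℝ := 4 * M ^ 3 * ε ^ 2 + 32 * M ^ 3 * τ + 16 * M ^ 3 * τ * ε * Real.sqrt κ
        + 2 * M ^ 3 * η * (1 + 1 / τ ^ 2) with hBg
  set Bb : ℝ := 8 * M ^ 3 * (2 + 1 / τ ^ 2) with hBb
  set q : ℝ := κ * γ / (ε / 16) ^ 2 with hq
  have hBg0 : 0 ≤ Bg := by positivity
  have hBb0 : 0 ≤ Bb := by positivity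
  have hq0 : 0 ≤ q := by positivity
  set good : V → Prop := fun u =>
    ∑ x ∈ Sr η D A P u (N + 1), ∑ y ∈ Sr η D A P u (N + 1), E x y ≤ (ε / 16) ^ 2 * D ^ 2
    with hgood
  have hbad : (((univ : Finset V).filter (fun u => ¬ good u)).card : ℝ) ≤ Fintype.card V * q :=
    bad_card hD hε hκ0 (fun u => Sr η D A P u (N + 1)) hcard' hE hEs
  cases j with
  | zero =>
    have hsumk : ∀ u, ∑ y ∈ Sr η D A P u 0, dd A P u y ^ 2 ≤ 2 * D := fun u =>
      (sum_le_sum_of_subset_of_nonneg (subset_univ _) (fun y _ _ => sq_nonneg _)).trans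
        (dd_sq_row hk u)
    have hk1 : ∀ u y, dd A P u y ^ 2 ≤ 1 := fun u y => by
      rw [← sq_abs]; exact pow_le_one₀ (abs_nonneg _) (dd_abs_le hk u y)
    have h := avg_good_bad (D := D) hV hBg0 hBb0 good (T := fun u =>
      (∑ e, R e * Qf D A P (Sr η D A P u 0) (Sr η D A P u 1)
      (fun y => dd A P u y ^ 2) R e ^ 2) / D) (q := q)
      (fun u hu => noise_good hk hM hη.le hε.le hκ0 hR hRM (hcard u)
        (hn _ (hcard u) hu) (Sr_mono η D A P u (Nat.zero_le _))
        (Sr_mono η D A P u (by omega)) (fun y => sq_nonneg _) (hk1 u) (hsumk u)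
        (fun e he => Sr_out hk η u 0 e he))
      (fun u => noise_bad hk hM hR hRM _ _ (fun y => sq_nonneg _) (hk1 u) (hsumk u)) hbad
    show (∑ u, (∑ e, R e * Qf D A P (Sr η D A P u 0) (Sr η D A P u 1)
      (fun y => dd A P u y ^ 2) R e ^ 2) / D) / Fintype.card V ≤ _
    have h2 : 0 ≤ q * Bb := mul_nonneg hq0 hBb0
    linarith
  | succ j =>
    have hsumk : ∀ u x, ∑ y ∈ Sr η D A P u (j + 1), P y x ^ 2 ≤ 2 * D := fun u x => by
      have h1 : ∑ y ∈ Sr η D A P u (j + 1), P y x ^ 2 ≤ ∑ y, P y x ^ 2 :=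
        sum_le_sum_of_subset_of_nonneg (subset_univ _) (fun y _ _ => sq_nonneg _)
      have h2 : ∑ y, P y x ^ 2 = ∑ y, P x y ^ 2 :=
        sum_congr rfl fun y _ => by rw [hk.P_symm y x]
      have h3 := P_sq_row hk x
      linarith
    have hk1 : ∀ y x, P y x ^ 2 ≤ 1 := fun y x =>
      pow_le_one₀ (hk.P_nonneg y x) ((hk.P_le y x).trans (hk.C_le y x))
    have hw : ∀ (u : V) (B : ℝ), 0 ≤ B → ∀ t : V → ℝ, (∀ x, t x ≤ B) →
        (∑ x, wg η D A P u j x * t x) / D ≤ 2 * B := by
      intro u B hB t ht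
      rw [div_le_iff₀ hD]
      calc ∑ x, wg η D A P u j x * t x ≤ ∑ x, wg η D A P u j x * B :=
            sum_le_sum fun x _ => mul_le_mul_of_nonneg_left (ht x) (wg_nonneg hk η u j x)
        _ = (∑ x, wg η D A P u j x) * B := by rw [sum_mul]
        _ ≤ 2 * D * B := mul_le_mul_of_nonneg_right (wg_sum hk η u j) hB
        _ = 2 * B * D := by ring
    have h := avg_good_bad (D := D) hV (Bg := 2 * Bg) (Bb := 2 * Bb) (by positivity)
      (by positivity) good (T := fun u => (∑ x, wg η D A P u j x *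
      ((∑ e, R e * Qf D A P (Sr η D A P u (j + 1)) (Sr η D A P u (j + 2))
        (fun y => P y x ^ 2) R e ^ 2) / D)) / D) (q := q)
      (fun u hu => hw u Bg hBg0 _ fun x => noise_good hk hM hη.le hε.le hκ0 hR hRM (hcard u)
        (hn _ (hcard u) hu) (Sr_mono η D A P u (by omega))
        (Sr_mono η D A P u (by omega)) (fun y => sq_nonneg _) (fun y => hk1 y x) (hsumk u x)
        (fun e he => Sr_out hk η u (j + 1) e he))
      (fun u => hw u Bb hBb0 _ fun x => noise_bad hk hM hR hRM _ _ (fun y => sq_nonneg _)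
        (fun y => hk1 y x) (hsumk u x)) hbad
    have e1 : Nz η D A P R (j + 1) = (∑ u, (∑ x, wg η D A P u j x *
      ((∑ e, R e * Qf D A P (Sr η D A P u (j + 1)) (Sr η D A P u (j + 2))
        (fun y => P y x ^ 2) R e ^ 2) / D)) / D) / Fintype.card V := by
      show (∑ u, ∑ x, wg η D A P u j x *
      ((∑ e, R e * Qf D A P (Sr η D A P u (j + 1)) (Sr η D A P u (j + 2))
        (fun y => P y x ^ 2) R e ^ 2) / D)) / (Fintype.card V * D) = _
      rw [← sum_div, div_div, mul_comm D]
    rw [e1]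
    linarith

/-- P8b -/
theorem Ph_init {V : Type} [Fintype V] {D τ η κ β z : ℝ} {A C P : V → V → ℝ}
    (hk : Ker D τ A C P) (hV : 0 < Fintype.card V) (hβ : 0 ≤ β) (N : ℕ)
    (hcard : ∀ u, ((Sr η D A P u (N + 1)).card : ℝ) ≤ κ * D)
    (htw : ∀ S : Finset V, (S.card : ℝ) ≤ κ * D →
          ((S.filter (fun x => z * D < ∑ y ∈ S, C x y ^ 2)).card : ℝ) ≤ β * D)
    {gs : ℝ} {g : ℕ → ℝ} (hgs : 2 ≤ gs) (hg : ∀ j, z ≤ g j) (hz : 0 ≤ z) :
    Ph η D A P N gs g (fun _ => 1) ≤ N * β := by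
  have hD : 0 < D := lt_of_lt_of_le one_pos hk.one_le
  have hnV : (0 : ℝ) < Fintype.card V := by exact_mod_cast hV
  unfold Ph
  have h1 : ∀ u, pp (nu D A P u (fun _ => 1) - gs) = 0 := by
    intro u
    unfold pp
    apply max_eq_right
    have : nu D A P u (fun _ => 1) ≤ 2 := by
      unfold nu
      rw [div_le_iff₀ hD]
      simpa using dd_sq_row hk u
    linarith
  have h2 : (∑ u, pp (nu D A P u (fun _ => 1) - gs) ^ 2) / (Fintype.card V : ℝ) = 0 := by
    simp [h1]
  rw [h2, zero_add]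
  have h3 : ∀ j ∈ range N, (∑ u, ∑ x, wg η D A P u j x *
      pp (sj η D A P u j x (fun _ => 1) - g j) ^ 2) / (Fintype.card V * D) ≤ β := by
    intro j hj
    rw [mem_range] at hj
    rw [div_le_iff₀ (by positivity)]
    have h4 : ∀ u, ∑ x, wg η D A P u j x *
        pp (sj η D A P u j x (fun _ => 1) - g j) ^ 2 ≤ β * D := by
      intro u
      set St := Sr η D A P u (N + 1) with hSt
      refine le_trans ?_ (htw St (hcard u))
      calc ∑ x, wg η D A P u j x * pp (sj η D A P u j x (fun _ => 1) - g j) ^ 2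
          ≤ ∑ x, if x ∈ St.filter (fun x => z * D < ∑ y ∈ St, C x y ^ 2) then (1:ℝ) else 0 := by
            refine sum_le_sum fun x _ => ?_
            have hsj : sj η D A P u j x (fun _ => 1) ≤ (∑ y ∈ St, C x y ^ 2) / D := by
              unfold sj
              apply div_le_div_of_nonneg_right _ hD.le
              calc ∑ y ∈ Sr η D A P u (j + 1), P y x ^ 2 * 1
                  ≤ ∑ y ∈ Sr η D A P u (j + 1), C x y ^ 2 := by
                    refine sum_le_sum fun y _ => ?_
                    rw [mul_one, hk.P_symm y x]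
                    exact pow_le_pow_left₀ (hk.P_nonneg x y) (hk.P_le x y) 2
                _ ≤ ∑ y ∈ St, C x y ^ 2 :=
                    sum_le_sum_of_subset_of_nonneg (Sr_mono η D A P u (by omega))
                      (fun y _ _ => sq_nonneg _)
            by_cases hx : x ∈ St
            · by_cases hx2 : z * D < ∑ y ∈ St, C x y ^ 2
              · rw [if_pos (mem_filter.2 ⟨hx, hx2⟩)]
                have h5 : pp (sj η D A P u j x (fun _ => 1) - g j) ≤ 1 := by
                  unfold pp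
                  apply max_le _ zero_le_one
                  have h6 : (∑ y ∈ St, C x y ^ 2) / D ≤ 1 := by
                    rw [div_le_one hD]
                    exact (sum_le_sum_of_subset_of_nonneg (subset_univ _)
                      (fun y _ _ => sq_nonneg _)).trans (hk.C_row x)
                  have := hg j
                  linarith
                have h7 : 0 ≤ pp (sj η D A P u j x (fun _ => 1) - g j) := le_max_right _ _
                have h8 := wg_le_one hk η u j x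
                have h9 := wg_nonneg hk η u j x
                exact mul_le_one₀ h8 (sq_nonneg _) (pow_le_one₀ h7 h5)
              · have hmem : x ∉ St.filter (fun x => z * D < ∑ y ∈ St, C x y ^ 2) :=
                  fun h => hx2 (mem_filter.1 h).2
                rw [if_neg hmem]
                have h5 : pp (sj η D A P u j x (fun _ => 1) - g j) = 0 := by
                  unfold pp
                  apply max_eq_right
                  have h6 : (∑ y ∈ St, C x y ^ 2) / D ≤ z := by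
                    rw [div_le_iff₀ hD]
                    exact not_lt.1 hx2
                  have := hg j
                  linarith
                rw [h5]; simp
            · have hmem : x ∉ St.filter (fun x => z * D < ∑ y ∈ St, C x y ^ 2) :=
                fun h => hx (mem_filter.1 h).1
              rw [if_neg hmem]
              have : x ∉ Sr η D A P u j := fun h => hx (Sr_mono η D A P u (by omega) h)
              rw [wg_supp hk η u j x this]; simp
        _ = ((St.filter (fun x => z * D < ∑ y ∈ St, C x y ^ 2)).card : ℝ) := by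
            rw [← sum_filter, sum_const, filter_mem_eq_inter, univ_inter]; simp
    calc ∑ u, ∑ x, wg η D A P u j x * pp (sj η D A P u j x (fun _ => 1) - g j) ^ 2
        ≤ ∑ u : V, β * D := sum_le_sum fun u _ => h4 u
      _ = β * (Fintype.card V * D) := by
          rw [sum_const, card_univ, nsmul_eq_mul]; ring
  calc ∑ j ∈ range N, (∑ u, ∑ x, wg η D A P u j x *
      pp (sj η D A P u j x (fun _ => 1) - g j) ^ 2) / (Fintype.card V * D)
      ≤ ∑ j ∈ range N, β := sum_le_sum h3
    _ = N * β := by rw [sum_const, card_range, nsmul_eq_mul]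

end Pool.Agent.H48.Vu
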