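import Pool.Agent.H48.Vu.P1
import Pool.Agent.H48.Vu.P4
import Pool.Agent.H48.Vu.P6
import Pool.Agent.H48.Vu.P7
import Pool.Agent.H48.Vu.P8
import Pool.Agent.Helper85.Vu.B0

/-! Constants and assembly: the theorem `dynamics`. -/

set_option autoImplicit false
set_option linter.unusedVariables false

namespace Pool.Agent.H48.Vu

open Finset Pool.Agent.Helper85.Vu
open scoped Classical

theorem pk_nonneg_P9 {V : Type} [Fintype V] {D τ : ℝ} {A C P : V → V → ℝ} (hk : Ker D τ A C P)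
    {R : V → ℝ} (hR : ∀ y, 0 ≤ R y) (e y : V) : 0 ≤ pk A P R e y := by
  unfold pk
  have h1 := abs_le.1 (dd_abs_le hk y e)
  exact mul_nonneg (hR y) (by linarith [h1.2])

theorem wt_nonneg_P9 {V : Type} [Fintype V] {D τ : ℝ} {A C P : V → V → ℝ} (hk : Ker D τ A C P)
    {R : V → ℝ} (hR : ∀ y, 0 ≤ R y) {h : ℝ} (hh : 0 ≤ h) (hZ : h * ((∑ y, R y) / D) ≤ 1) (y : V) :
    0 ≤ wt D A P h R y := by
  have hD : 0 < D := lt_of_lt_of_le one_pos hk.one_le
  unfold wt rt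
  refine mul_nonneg (hR y) ?_
  have h1 : |(∑ x, R x * dd A P y x) / D| ≤ (∑ y, R y) / D := by
    rw [abs_div, abs_of_pos hD]
    refine div_le_div_of_nonneg_right ?_ hD.le
    refine (Finset.abs_sum_le_sum_abs _ _).trans (Finset.sum_le_sum fun x _ => ?_)
    rw [abs_mul, abs_of_nonneg (hR x)]
    exact mul_le_of_le_one_right (hR x) (dd_abs_le hk y x)
  have h2 := (abs_le.1 h1).1
  nlinarith

theorem run {V : Type} [Fintype V] {D τ : ℝ} {A C P : V → V → ℝ} (hk : Ker D τ A C P)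
    (hV : 0 < Fintype.card V) (η : ℝ) {M T : ℝ} (hM : 1 ≤ M) (hT : 0 < T)
    (N : ℕ) (g : ℕ → ℝ → ℝ) (gs : ℝ → ℝ) {G L L0 ν ε5 β B : ℝ} (hG : 0 ≤ G) (hL : 0 ≤ L)
    (hL0 : 0 ≤ L0)
    (hg0 : ∀ j t, 0 ≤ t → t ≤ T → 0 ≤ g j t)
    (hgN : ∀ t, 0 ≤ t → t ≤ T → M ≤ g N t)
    (hg : ∀ j t h, j < N → 0 ≤ t → 0 < h → t + h ≤ T → g j t ≤ g j (t + h) ∧
        g j (t + h) - g j t ≤ L * h ∧
        (g j t < M → h * (g j t * g (j + 1) t) ≤ g j (t + h) - g j t ∧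
          g (j + 1) t ≤ G))
    (hgs : ∀ t h, 0 ≤ t → 0 < h → t + h ≤ T → gs t ≤ gs (t + h) ∧ gs (t + h) - gs t ≤ L * h ∧
        h * (gs t * g 0 t) ≤ gs (t + h) - gs t ∧ g 0 t ≤ G)
    (hgsL : ∀ t, 0 ≤ t → t ≤ T → 0 ≤ gs t ∧ gs t ≤ L0)
    (hν : ∀ R : V → ℝ, (∀ y, 0 ≤ R y) → (∀ y, R y ≤ M) → ∀ j, j ≤ N → Nz η D A P R j ≤ ν)
    (hν0 : 0 ≤ ν) (hε5 : 0 < ε5)
    (hinit : Ph η D A P N (gs 0) (fun j => g j 0) (fun _ => 1) ≤ N * β)
    {am : ℝ} (ham : am = T / M * Real.exp (L0 * T))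
    (hB : am * M ^ 2 / (4 * ε5) ≤ B)
    {bm : ℝ} (hbm : bm = B * Real.exp ((2 * G + 2 + 2 * M ^ 2) * T)) {δ' : ℝ} (hδ' : 0 < δ') :
    ∃ I : Finset V, (∀ x ∈ I, ∀ y ∈ I, x ≠ y → A x y = 0) ∧
      T - am - bm * (N * β) - T * (am * M ^ 2 * ε5 + bm * ((N + 1) * ν)) - δ' ≤
        I.card * (D / Fintype.card V) := by
  have hD : 0 < D := lt_of_lt_of_le one_pos hk.one_le
  have hM0 : 0 < M := lt_of_lt_of_le one_pos hM
  have hn : (0 : ℝ) < Fintype.card V := by exact_mod_cast hV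
  have ham0 : 0 < am := by rw [ham]; positivity
  have hB0 : 0 ≤ B := le_trans (by positivity) hB
  have hbm0 : 0 ≤ bm := by rw [hbm]; positivity
  obtain ⟨Zm, hZm⟩ : ∃ Zm : ℝ, Zm = Fintype.card V * M / D := ⟨_, rfl⟩
  have hZm0 : 0 ≤ Zm := by rw [hZm]; positivity
  obtain ⟨K, hK⟩ : ∃ K : ℝ, K = T * Zm ^ 2 * M + 3 * am * Zm ^ 2 * M ^ 2
      + bm * ((2 * N + 1) * (3 * Zm ^ 4 + L ^ 2)) := ⟨_, rfl⟩
  have hK0 : 0 ≤ K := by rw [hK]; positivity
  obtain ⟨m, hm⟩ := exists_nat_gt (max (T * Zm) (T * T * K / δ'))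
  have hm1 : T * Zm < m := lt_of_le_of_lt (le_max_left _ _) hm
  have hm2 : T * T * K / δ' < m := lt_of_le_of_lt (le_max_right _ _) hm
  have hm0 : (0 : ℝ) < m := lt_of_le_of_lt (by positivity) hm1
  obtain ⟨h, hh⟩ : ∃ h : ℝ, h = T / m := ⟨_, rfl⟩
  have hh0 : 0 < h := by rw [hh]; positivity
  have hmh : (m : ℝ) * h = T := by rw [hh]; field_simp
  have hhZ : h * Zm ≤ 1 := by
    rw [hh, div_mul_eq_mul_div, div_le_one hm0]; exact hm1.le
  have hhK : T * h * K ≤ δ' := by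
    rw [div_lt_iff₀ hδ'] at hm2
    have e1 : T * h * K = T * T * K / m := by rw [hh]; ring
    rw [e1, div_le_iff₀ hm0]
    linarith
  obtain ⟨C5, hC5⟩ : ∃ C5 : ℝ, C5 = 2 * G + 2 + 2 * M ^ 2 := ⟨_, rfl⟩
  have hC50 : 0 ≤ C5 := by rw [hC5]; positivity
  obtain ⟨a, ha⟩ : ∃ a : ℝ → ℝ, a = fun t => T / M * Real.exp (L0 * (T - t)) := ⟨_, rfl⟩
  obtain ⟨b, hb⟩ : ∃ b : ℝ → ℝ, b = fun t => B * Real.exp (C5 * (T - t)) := ⟨_, rfl⟩
  have ha0 : ∀ t, 0 ≤ a t := fun t => by rw [ha]; positivity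
  have hb0 : ∀ t, 0 ≤ b t := fun t => by rw [hb]; positivity
  have ham' : ∀ t, 0 ≤ t → a t ≤ am := by
    intro t ht
    rw [ha, ham]
    refine mul_le_mul_of_nonneg_left (Real.exp_le_exp.2 ?_) (by positivity)
    exact mul_le_mul_of_nonneg_left (by linarith) hL0
  have hbm' : ∀ t, 0 ≤ t → b t ≤ bm := by
    intro t ht
    rw [hb, hbm, ← hC5]
    refine mul_le_mul_of_nonneg_left (Real.exp_le_exp.2 ?_) hB0
    exact mul_le_mul_of_nonneg_left (by linarith) hC50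
  have hBb : ∀ t, t ≤ T → B ≤ b t := by
    intro t ht
    rw [hb]
    exact le_mul_of_one_le_right hB0 (Real.one_le_exp (mul_nonneg hC50 (by linarith)))
  have hTa : ∀ t, t ≤ T → T ≤ a t * M := by
    intro t ht
    rw [ha]
    have e1 : T / M * Real.exp (L0 * (T - t)) * M = T * Real.exp (L0 * (T - t)) := by
      field_simp
    simp only [e1]
    exact le_mul_of_one_le_right hT.le (Real.one_le_exp (mul_nonneg hL0 (by linarith)))
  have hastep : ∀ t, 0 ≤ t → t + h ≤ T → a (t + h) * (1 + h * gs t) ≤ a t := by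
    intro t ht hth
    have h1 := (hgsL t ht (by linarith)).2
    have h2 : 1 + h * gs t ≤ Real.exp (L0 * h) := by
      have h3 := Real.add_one_le_exp (L0 * h)
      nlinarith
    calc a (t + h) * (1 + h * gs t) ≤ a (t + h) * Real.exp (L0 * h) :=
          mul_le_mul_of_nonneg_left h2 (ha0 _)
      _ = a t := by
          rw [ha]
          simp only
          rw [mul_assoc, ← Real.exp_add]
          congr 2
          ring
  have hbstep : ∀ t, 0 ≤ t → t + h ≤ T →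
      b (t + h) * (1 + h * (2 * G + 1 + 2 * M ^ 2)) + h * (a (t + h) * M ^ 2 / (4 * ε5)) ≤ b t := by
    intro t ht hth
    have h1 : a (t + h) * M ^ 2 / (4 * ε5) ≤ b (t + h) := by
      refine le_trans ?_ (hBb _ hth)
      refine le_trans ?_ hB
      refine div_le_div_of_nonneg_right ?_ (by positivity)
      exact mul_le_mul_of_nonneg_right (ham' _ (by linarith)) (by positivity)
    have h2 : 1 + h * C5 ≤ Real.exp (C5 * h) := by
      have h3 := Real.add_one_le_exp (C5 * h)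
      linarith
    calc b (t + h) * (1 + h * (2 * G + 1 + 2 * M ^ 2)) + h * (a (t + h) * M ^ 2 / (4 * ε5))
        ≤ b (t + h) * (1 + h * (2 * G + 1 + 2 * M ^ 2)) + h * b (t + h) := by
          have := mul_le_mul_of_nonneg_left h1 hh0.le
          linarith
      _ = b (t + h) * (1 + h * C5) := by rw [hC5]; ring
      _ ≤ b (t + h) * Real.exp (C5 * h) := mul_le_mul_of_nonneg_left h2 (hb0 _)
      _ = b t := by
          rw [hb]
          simp only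
          rw [mul_assoc, ← Real.exp_add]
          congr 2
          ring
  obtain ⟨F, hF⟩ : ∃ F : ℕ → (V → ℝ) → ℝ, F = fun (i : ℕ) R =>
      Fp η D A P N (T - (i : ℝ) * h) (a ((i : ℝ) * h)) (b ((i : ℝ) * h)) (gs ((i : ℝ) * h))
        (fun j => g j ((i : ℝ) * h)) R :=
    ⟨_, rfl⟩
  obtain ⟨err, herr⟩ : ∃ err : ℝ, err = h * (am * M ^ 2 * ε5 + bm * ((N + 1) * ν)) + h ^ 2 * K :=
    ⟨_, rfl⟩
  have hhM : h * (Fintype.card V * M / D) ≤ 1 := by rw [← hZm]; exact hhZ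
  obtain ⟨I, hI1, hI2, hI3⟩ := iter hk hM0.le hh0.le hhM m F (err := err) (by
    intro i hi R hR hRM
    have hti : 0 ≤ (i : ℝ) * h := by positivity
    have hti2 : (i : ℝ) * h + h ≤ T := by
      rw [← hmh]
      have h1 : (i : ℝ) + 1 ≤ m := by exact_mod_cast hi
      nlinarith
    have e1 : ((i + 1 : ℕ) : ℝ) * h = (i : ℝ) * h + h := by push_cast; ring
    have hZ0 : 0 ≤ (∑ y, R y) / D := div_nonneg (Finset.sum_nonneg fun y _ => hR y) hD.le
    have hZle : (∑ y, R y) / D ≤ Zm := by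
      rw [hZm]
      refine div_le_div_of_nonneg_right ?_ hD.le
      calc ∑ y, R y ≤ ∑ y : V, M := Finset.sum_le_sum fun y _ => hRM y
        _ = Fintype.card V * M := by rw [Finset.sum_const, Finset.card_univ, nsmul_eq_mul]
    have hhZ1 : h * ((∑ y, R y) / D) ≤ 1 := le_trans (mul_le_mul_of_nonneg_left hZle hh0.le) hhZ
    have hr : 0 ≤ T - ((i : ℝ) * h + h) := by linarith
    have key := Fp_step hk hV η hM hh0.le hR hRM (Z := (∑ y, R y) / D) rfl hhZ1 N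
      (gs := gs (i * h)) (gs' := gs (i * h + h)) (g := fun j => g j (i * h))
      (g' := fun j => g j (i * h + h)) (G := G) (L := L) (ν := ν) hG hL
      (fun j => hg0 j _ hti (by linarith)) (hgsL _ hti (by linarith)).1 (hgN _ hti (by linarith))
      (fun j hj => hg j _ h hj hti hh0 hti2) (hgs _ h hti hh0 hti2) (hν R hR hRM)
      (r := T - (i * h + h)) (a := a (i * h)) (a' := a (i * h + h)) (b := b (i * h))
      (b' := b (i * h + h)) (ε5 := ε5) hr (ha0 _) (hb0 _) hε5 (hastep _ hti hti2)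
      (hbstep _ hti hti2)
    have e2 : T - ((i : ℝ) * h + h) + h = T - i * h := by ring
    rw [e2] at key
    have hdisc : ∀ R' : V → ℝ, (∀ y, 0 ≤ R' y) →
        Fp η D A P N (T - (i * h + h)) (a (i * h + h)) (b (i * h + h)) (gs (i * h + h))
          (fun j => g j (i * h + h)) R' ≤
        Fp η D A P N (T - (i * h + h)) (a (i * h + h)) (b (i * h + h)) (gs (i * h + h))
          (fun j => g j (i * h + h)) (disc M R') := by
      intro R' hR'
      refine Fp_disc hk η hM0.le hR' N _ _ hr (ha0 _) (hb0 _) ?_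
      exact le_trans (by linarith) (hTa _ hti2)
    have hZ4 : ((∑ y, R y) / D) ^ 2 ≤ Zm ^ 2 := pow_le_pow_left₀ hZ0 hZle 2
    have hZ5 : ((∑ y, R y) / D) ^ 4 ≤ Zm ^ 4 := pow_le_pow_left₀ hZ0 hZle 4
    have ha1 := ham' (i * h + h) (by linarith)
    have hb1 := hbm' (i * h + h) (by linarith)
    have herr1 : a (i * h + h) * M ^ 2 * ε5 + b (i * h + h) * ((N + 1) * ν) ≤
        am * M ^ 2 * ε5 + bm * ((N + 1) * ν) := by
      refine add_le_add ?_ ?_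
      · exact mul_le_mul_of_nonneg_right (mul_le_mul_of_nonneg_right ha1 (by positivity)) hε5.le
      · exact mul_le_mul_of_nonneg_right hb1 (by positivity)
    have herr2 : (T - (i * h + h)) * ((∑ y, R y) / D) ^ 2 * M
          + 3 * a (i * h + h) * ((∑ y, R y) / D) ^ 2 * M ^ 2
          + b (i * h + h) * ((2 * N + 1) * (3 * ((∑ y, R y) / D) ^ 4 + L ^ 2)) ≤ K := by
      rw [hK]
      refine add_le_add (add_le_add ?_ ?_) ?_
      · refine mul_le_mul_of_nonneg_right ?_ hM0.le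
        exact mul_le_mul (by linarith) hZ4 (by positivity) hT.le
      · refine mul_le_mul_of_nonneg_right ?_ (by positivity)
        exact mul_le_mul (by linarith) hZ4 (by positivity) (by positivity)
      · refine mul_le_mul hb1 ?_ (by positivity) hbm0
        refine mul_le_mul_of_nonneg_left ?_ (by positivity)
        linarith
    rw [hF]
    simp only [e1]
    have key2 : ∑ e, h * (R e / D) * (D / Fintype.card V +
          Fp η D A P N (T - (i * h + h)) (a (i * h + h)) (b (i * h + h)) (gs (i * h + h))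
            (fun j => g j (i * h + h)) (pk A P R e))
        + (1 - h * ((∑ e, R e) / D)) *
          Fp η D A P N (T - (i * h + h)) (a (i * h + h)) (b (i * h + h)) (gs (i * h + h))
            (fun j => g j (i * h + h)) (wt D A P h R) ≤
        ∑ e, h * (R e / D) * (D / Fintype.card V +
          Fp η D A P N (T - (i * h + h)) (a (i * h + h)) (b (i * h + h)) (gs (i * h + h))
            (fun j => g j (i * h + h)) (disc M (pk A P R e)))
        + (1 - h * ((∑ e, R e) / D)) *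
          Fp η D A P N (T - (i * h + h)) (a (i * h + h)) (b (i * h + h)) (gs (i * h + h))
            (fun j => g j (i * h + h)) (disc M (wt D A P h R)) := by
      refine add_le_add (Finset.sum_le_sum fun e _ => ?_) ?_
      · refine mul_le_mul_of_nonneg_left ?_ (mul_nonneg hh0.le (div_nonneg (hR e) hD.le))
        have := hdisc _ (pk_nonneg_P9 hk hR e)
        linarith
      · exact mul_le_mul_of_nonneg_left (hdisc _ (wt_nonneg_P9 hk hR hh0.le hhZ1)) (by linarith)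
    refine le_trans ?_ (key.trans key2)
    have h5 := mul_le_mul_of_nonneg_left herr1 hh0.le
    have h6 := mul_le_mul_of_nonneg_left herr2 (sq_nonneg h)
    rw [herr]
    linarith) (by
    intro R hR hRM
    rw [hF]
    simp only [hmh, sub_self]
    unfold Fp
    have h1 : 0 ≤ (∑ y, R y ^ 2) / (Fintype.card V : ℝ) :=
      div_nonneg (Finset.sum_nonneg fun y _ => sq_nonneg _) hn.le
    have h2 : 0 ≤ Ph η D A P N (gs T) (fun j => g j T) R := by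
      unfold Ph
      refine add_nonneg (div_nonneg (Finset.sum_nonneg fun u _ => sq_nonneg _) hn.le) ?_
      refine Finset.sum_nonneg fun j _ => div_nonneg ?_ (by positivity)
      refine Finset.sum_nonneg fun u _ => Finset.sum_nonneg fun x _ => ?_
      exact mul_nonneg (wg_nonneg hk η u j x) (sq_nonneg _)
    have h3 := mul_nonneg (ha0 T) h1
    have h4 := mul_nonneg (hb0 T) h2
    linarith) (fun _ => 1) (fun _ => zero_le_one) (fun _ => hM)
  refine ⟨I, hI2, le_trans ?_ hI3⟩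
  rw [hF]
  simp only [Nat.cast_zero, zero_mul, sub_zero]
  unfold Fp
  have e3 : (∑ y : V, (1 : ℝ)) / Fintype.card V = 1 := by
    rw [Finset.sum_const, Finset.card_univ, nsmul_eq_mul, mul_one, div_self hn.ne']
  have e4 : (∑ y : V, (1 : ℝ) ^ 2) / Fintype.card V = 1 := by
    simp only [one_pow]
    exact e3
  rw [e3, e4]
  have h1 := ham' 0 le_rfl
  have h2 := hbm' 0 le_rfl
  have h3 : b 0 * Ph η D A P N (gs 0) (fun j => g j 0) (fun _ => 1) ≤ bm * (N * β) := by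
    refine mul_le_mul h2 hinit ?_ hbm0
    unfold Ph
    refine add_nonneg (div_nonneg (Finset.sum_nonneg fun u _ => sq_nonneg _) hn.le) ?_
    refine Finset.sum_nonneg fun j _ => div_nonneg ?_ (by positivity)
    refine Finset.sum_nonneg fun u _ => Finset.sum_nonneg fun x _ => ?_
    exact mul_nonneg (wg_nonneg hk η u j x) (sq_nonneg _)
  have h4 : (m : ℝ) * err = T * (am * M ^ 2 * ε5 + bm * ((N + 1) * ν)) + T * h * K := by
    rw [herr]
    calc (m : ℝ) * (h * (am * M ^ 2 * ε5 + bm * ((N + 1) * ν)) + h ^ 2 * K)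
        = (m * h) * (am * M ^ 2 * ε5 + bm * ((N + 1) * ν)) + (m * h) * h * K := by ring
      _ = _ := by rw [hmh]
  rw [h4]
  linarith

/-- choice of the constants which control the noise -/
theorem noise_consts (M ν : ℝ) (hM : 1 ≤ M) (hν : 0 < ν) (N : ℕ) :
    ∃ τ η κ ε γ : ℝ, 0 < τ ∧ τ ≤ 1 ∧ 0 < η ∧ 0 < κ ∧ kap τ η (N + 2) ≤ κ ∧ 0 < ε ∧ 0 < γ ∧
      2 * (4 * M ^ 3 * ε ^ 2 + 32 * M ^ 3 * τ + 16 * M ^ 3 * τ * ε * Real.sqrt κ
        + 2 * M ^ 3 * η * (1 + 1 / τ ^ 2))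
      + 2 * (κ * γ / (ε / 16) ^ 2) * (8 * M ^ 3 * (2 + 1 / τ ^ 2)) ≤ ν := by
  have hM0 : 0 < M := lt_of_lt_of_le one_pos hM
  obtain ⟨τ, hτ⟩ : ∃ τ : ℝ, τ = min 1 (ν / (320 * M ^ 3)) := ⟨_, rfl⟩
  have hτ0 : 0 < τ := by rw [hτ]; exact lt_min one_pos (by positivity)
  have hτ1 : τ ≤ 1 := by rw [hτ]; exact min_le_left _ _
  have hτ2 : τ ≤ ν / (320 * M ^ 3) := by rw [hτ]; exact min_le_right _ _
  have hM3 : 0 < M ^ 3 := by positivity
  have h1 : M ^ 3 * τ ≤ ν / 320 := by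
    rw [le_div_iff₀ (by positivity)] at hτ2
    linarith
  have hq : 0 < 1 + 1 / τ ^ 2 := by positivity
  obtain ⟨η, hη⟩ : ∃ η : ℝ, η = ν / (20 * M ^ 3 * (1 + 1 / τ ^ 2)) := ⟨_, rfl⟩
  have hη0 : 0 < η := by rw [hη]; positivity
  have h2 : M ^ 3 * η * (1 + 1 / τ ^ 2) = ν / 20 := by
    rw [hη]
    have : 1 + 1 / τ ^ 2 ≠ 0 := hq.ne'
    field_simp
  have hkap := kap_nonneg' (τ := τ) hη0 (N + 2)
  obtain ⟨κ, hκ⟩ : ∃ κ : ℝ, κ = kap τ η (N + 2) + 1 := ⟨_, rfl⟩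
  have hκ0 : 0 < κ := by rw [hκ]; linarith
  obtain ⟨ε, hε⟩ : ∃ ε : ℝ, ε = min 1 (min (ν / (40 * M ^ 3))
      (ν / (160 * M ^ 3 * (Real.sqrt κ + 1)))) := ⟨_, rfl⟩
  have hsq := Real.sqrt_nonneg κ
  have hε0 : 0 < ε := by
    rw [hε]
    exact lt_min one_pos (lt_min (by positivity) (by positivity))
  have hε1 : ε ≤ 1 := by rw [hε]; exact min_le_left _ _
  have hε2 : ε ≤ ν / (40 * M ^ 3) := by
    rw [hε]; exact (min_le_right _ _).trans (min_le_left _ _)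
  have hε3 : ε ≤ ν / (160 * M ^ 3 * (Real.sqrt κ + 1)) := by
    rw [hε]; exact (min_le_right _ _).trans (min_le_right _ _)
  have h3 : M ^ 3 * ε ^ 2 ≤ ν / 40 := by
    rw [le_div_iff₀ (by positivity)] at hε2
    have : ε ^ 2 ≤ ε := by nlinarith
    nlinarith
  have h4 : M ^ 3 * τ * ε * Real.sqrt κ ≤ ν / 160 := by
    rw [le_div_iff₀ (by positivity)] at hε3
    have e1 : M ^ 3 * τ * ε * Real.sqrt κ ≤ M ^ 3 * 1 * ε * (Real.sqrt κ + 1) := by
      refine mul_le_mul ?_ (by linarith) hsq (by positivity)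
      refine mul_le_mul_of_nonneg_right ?_ hε0.le
      exact mul_le_mul_of_nonneg_left hτ1 hM3.le
    nlinarith
  obtain ⟨γ, hγ⟩ : ∃ γ : ℝ, γ = ν * (ε / 16) ^ 2 / (80 * M ^ 3 * (2 + 1 / τ ^ 2) * κ) := ⟨_, rfl⟩
  have hq2 : 0 < 2 + 1 / τ ^ 2 := by positivity
  have hγ0 : 0 < γ := by rw [hγ]; positivity
  have h5 : κ * γ / (ε / 16) ^ 2 * (M ^ 3 * (2 + 1 / τ ^ 2)) = ν / 80 := by
    rw [hγ]
    have : 2 + 1 / τ ^ 2 ≠ 0 := hq2.ne'
    field_simp
  refine ⟨τ, η, κ, ε, γ, hτ0, hτ1, hη0, hκ0, by rw [hκ]; linarith, hε0, hγ0, ?_⟩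
  have e1 : 2 * (4 * M ^ 3 * ε ^ 2 + 32 * M ^ 3 * τ + 16 * M ^ 3 * τ * ε * Real.sqrt κ
        + 2 * M ^ 3 * η * (1 + 1 / τ ^ 2))
      + 2 * (κ * γ / (ε / 16) ^ 2) * (8 * M ^ 3 * (2 + 1 / τ ^ 2)) =
      8 * (M ^ 3 * ε ^ 2) + 64 * (M ^ 3 * τ) + 32 * (M ^ 3 * τ * ε * Real.sqrt κ)
        + 4 * (M ^ 3 * η * (1 + 1 / τ ^ 2))
        + 16 * (κ * γ / (ε / 16) ^ 2 * (M ^ 3 * (2 + 1 / τ ^ 2))) := by ring
  rw [e1, h2, h5]
  linarith

/-- P9 = the frozen interface theorem of the skeleton -/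
theorem dynamics (ζ δ : ℝ) (hζ : 0 < ζ) (hζ1 : ζ < 1) (hδ : 0 < δ) :
    ∃ ε₀ τ β κ ε γ : ℝ, 0 < ε₀ ∧ 0 < τ ∧ τ ≤ 1 ∧ 0 < β ∧ 0 < κ ∧ 0 < ε ∧ 0 < γ ∧
      ∀ (V : Type) [Fintype V] (D : ℝ) (A C P E : V → V → ℝ), Ker D τ A C P →
        (∀ S : Finset V, (S.card : ℝ) ≤ κ * D →
          ((S.filter (fun x => (ζ + ε₀) * D < ∑ y ∈ S, C x y ^ 2)).card : ℝ) ≤ β * D) →
        (∀ x y, 0 ≤ E x y) →
        (∑ x, ∑ y, E x y ≤ γ * (Fintype.card V) * D) →
        (∀ S : Finset V, (S.card : ℝ) ≤ κ * D →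
          ∑ x ∈ S, ∑ y ∈ S, E x y ≤ (ε / 16) ^ 2 * D ^ 2 → NoiseOK ε D A C P S) →
        ∃ I : Finset V, (∀ x ∈ I, ∀ y ∈ I, x ≠ y → A x y = 0) ∧
          (1 - δ) / ζ * ((Fintype.card V : ℝ) / D) ≤ I.card := by
  rcases le_or_gt 1 δ with hδ1 | hδ1
  · refine ⟨1, 1, 1, 1, 1, 1, one_pos, one_pos, le_rfl, one_pos, one_pos, one_pos, one_pos, ?_⟩
    intro V _ D A C P E hk _ _ _ _
    have hD : 0 < D := lt_of_lt_of_le one_pos hk.one_le
    refine ⟨∅, by simp, ?_⟩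
    have h1 : (1 - δ) / ζ ≤ 0 := div_nonpos_of_nonpos_of_nonneg (by linarith) hζ.le
    have h2 : 0 ≤ (Fintype.card V : ℝ) / D := by positivity
    simpa using mul_nonpos_of_nonpos_of_nonneg h1 h2
  obtain ⟨ε₀, hε₀⟩ : ∃ ε₀ : ℝ, ε₀ = ζ * δ / 4 := ⟨_, rfl⟩
  have hε₀0 : 0 < ε₀ := by rw [hε₀]; positivity
  obtain ⟨T, hT⟩ : ∃ T : ℝ, T = (1 - δ / 2) / ζ := ⟨_, rfl⟩
  have hT0 : 0 < T := by rw [hT]; exact div_pos (by linarith) hζ
  have hz : 0 < ζ + ε₀ := by linarith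
  have hzT : (ζ + ε₀) * T < 1 := by
    have e1 : (ζ + ε₀) * T = (1 + δ / 4) * (1 - δ / 2) := by
      rw [hT, hε₀]; field_simp
    rw [e1]
    nlinarith
  obtain ⟨L0, hL0⟩ : ∃ L0 : ℝ,
      L0 = 2 * Real.exp (((ζ + ε₀) / (1 - (ζ + ε₀) * T) + 1) * T) := ⟨_, rfl⟩
  have hL00 : 0 ≤ L0 := by rw [hL0]; positivity
  obtain ⟨δ', hδ'⟩ : ∃ δ' : ℝ, δ' = δ / (10 * ζ) := ⟨_, rfl⟩
  have hδ'0 : 0 < δ' := by rw [hδ']; positivity
  obtain ⟨M, hM⟩ : ∃ M : ℝ, M = max 1 (T * Real.exp (L0 * T) / δ') := ⟨_, rfl⟩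
  have hM1 : 1 ≤ M := by rw [hM]; exact le_max_left _ _
  have hM0 : 0 < M := lt_of_lt_of_le one_pos hM1
  have hM2 : T * Real.exp (L0 * T) / δ' ≤ M := by rw [hM]; exact le_max_right _ _
  obtain ⟨am, ham⟩ : ∃ am : ℝ, am = T / M * Real.exp (L0 * T) := ⟨_, rfl⟩
  have ham0 : 0 < am := by rw [ham]; positivity
  have hamδ : am ≤ δ' := by
    rw [div_le_iff₀ hδ'0] at hM2
    rw [ham, div_mul_eq_mul_div, div_le_iff₀ hM0]
    linarith
  obtain ⟨N, g, gs, G, L, hG, hL, hgz, hgs2, hg0, hgN, hg, hgs, hgsL⟩ :=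
    sched (ζ + ε₀) T M hz hT0 hzT hM1
  rw [← hL0] at hgsL
  obtain ⟨ε5, hε5⟩ : ∃ ε5 : ℝ, ε5 = δ' / (T * am * M ^ 2) := ⟨_, rfl⟩
  have hε50 : 0 < ε5 := by rw [hε5]; positivity
  have h1 : T * (am * M ^ 2 * ε5) = δ' := by rw [hε5]; field_simp
  obtain ⟨B, hB⟩ : ∃ B : ℝ, B = am * M ^ 2 / (4 * ε5) := ⟨_, rfl⟩
  have hB0 : 0 < B := by rw [hB]; positivity
  obtain ⟨bm, hbm⟩ : ∃ bm : ℝ, bm = B * Real.exp ((2 * G + 2 + 2 * M ^ 2) * T) := ⟨_, rfl⟩
  have hbm0 : 0 < bm := by rw [hbm]; positivity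
  have hN1 : (0 : ℝ) < N + 1 := by positivity
  obtain ⟨β, hβ⟩ : ∃ β : ℝ, β = δ' / (bm * (N + 1)) := ⟨_, rfl⟩
  have hβ0 : 0 < β := by rw [hβ]; positivity
  have h2 : bm * (N * β) ≤ δ' := by
    have e1 : bm * ((N + 1) * β) = δ' := by rw [hβ]; field_simp
    have e2 : 0 < bm * β := by positivity
    nlinarith
  obtain ⟨ν, hν⟩ : ∃ ν : ℝ, ν = δ' / (T * bm * (N + 1)) := ⟨_, rfl⟩
  have hν0 : 0 < ν := by rw [hν]; positivity
  have h3 : T * (bm * ((N + 1) * ν)) = δ' := by rw [hν]; field_simp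
  obtain ⟨τ, η, κ, ε, γ, hτ0, hτ1, hη0, hκ0, hκ, hε0, hγ0, hnoise⟩ := noise_consts M ν hM1 hν0 N
  refine ⟨ε₀, τ, β, κ, ε, γ, hε₀0, hτ0, hτ1, hβ0, hκ0, hε0, hγ0, ?_⟩
  intro V _ D A C P E hk htw hE hEs hn
  have hD : 0 < D := lt_of_lt_of_le one_pos hk.one_le
  rcases Nat.eq_zero_or_pos (Fintype.card V) with hV | hV
  · refine ⟨∅, by simp, ?_⟩
    rw [hV]
    simp
  have hnV : (0 : ℝ) < Fintype.card V := by exact_mod_cast hV
  have hcard : ∀ u, ((Sr η D A P u (N + 1)).card : ℝ) ≤ κ * D := fun u =>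
    le_trans (reg_card hk hη0 u (N + 2)) (mul_le_mul_of_nonneg_right hκ hD.le)
  have hcard' : ∀ x, ((univ.filter (fun u => x ∈ Sr η D A P u (N + 1))).card : ℝ) ≤ κ * D :=
    fun x => le_trans (reg_card' hk hη0 x (N + 2)) (mul_le_mul_of_nonneg_right hκ hD.le)
  obtain ⟨I, hI1, hI2⟩ := run hk hV η hM1 hT0 N g gs (ε5 := ε5) (β := β) (B := B) (ν := ν)
    hG hL hL00 hg0 hgN hg hgs hgsL
    (fun R hR hRM j hj => (Nz_le hk hV hM1 hη0 hε0 hκ0.le hγ0.le N hcard hcard' hE hEs hn hR hRM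
      j hj).trans hnoise) hν0.le hε50
    (Ph_init hk hV hβ0.le N hcard htw hgs2 hgz hz.le) ham hB.ge hbm hδ'0
  refine ⟨I, hI1, ?_⟩
  have h4 : (1 - δ) / ζ ≤ I.card * (D / Fintype.card V) := by
    refine le_trans ?_ hI2
    have e1 : (1 - δ) / ζ = T - 5 * δ' := by
      rw [hT, hδ']; field_simp; ring
    have e2 : T * (am * M ^ 2 * ε5 + bm * ((N + 1) * ν)) = δ' + δ' := by
      rw [mul_add, h1, h3]
    rw [e1, e2]
    linarith
  calc (1 - δ) / ζ * ((Fintype.card V : ℝ) / D)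
      ≤ I.card * (D / Fintype.card V) * ((Fintype.card V : ℝ) / D) :=
        mul_le_mul_of_nonneg_right h4 (by positivity)
    _ = I.card := by field_simp

end Pool.Agent.H48.Vu
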